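import Pool.Agent.H318.BR.Stm
import Pool.Agent.H318.BQ.Final

/-!
# Project BR: assembly
-/

set_option autoImplicit false

open scoped commutatorElement

namespace Pool.Agent.H318.BR

open Y208.BH Pool.Agent.H318.BQ

theorem inv_app {X : Type} (f : Equiv.Perm X) (x : X) : f⁻¹ (f x) = x := f.symm_apply_apply x

theorem fg_map {G G' : Type} [Group G] [Group G'] {H : Subgroup G} (h : H.FG) (f : G →* G') :
    (H.map f).FG := by
  classical
  obtain ⟨S, hS⟩ := h
  refine ⟨S.image f, ?_⟩
  rw [← hS, MonoidHom.map_closure, Finset.coe_image]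

section
variable {R V J : Type} [Ring R] [AddCommGroup V] [Module R V] [Fintype J] [DecidableEq J]

theorem rho_single (hB : S_BRG) (z : SU R J) (o : J) (v : V) (i : J) :
    rho R V J z (Finsupp.single o v) i = (mt R J z).val i o • v := by
  rw [hB, Finset.sum_eq_single o]
  · rw [Finsupp.single_eq_same]
  · intro j _ hj
    rw [Finsupp.single_eq_of_ne hj, smul_zero]
  · intro h
    exact absurd (Finset.mem_univ o) h

theorem fix_iff (hB : S_BRG) (z : SU R J) (o : J) (v : V) :
    rho R V J z (Finsupp.single o v) = Finsupp.single o v ↔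
      ∀ i, (mt R J z).val i o • v = if i = o then v else 0 := by
  classical
  constructor
  · intro h i
    rw [← rho_single hB, h, Finsupp.single_apply]
    by_cases hi : i = o
    · rw [if_pos hi, if_pos hi.symm]
    · rw [if_neg hi, if_neg (Ne.symm hi)]
  · intro h
    ext i
    rw [rho_single hB, h, Finsupp.single_apply]
    by_cases hi : i = o
    · rw [if_pos hi, if_pos hi.symm]
    · rw [if_neg hi, if_neg (Ne.symm hi)]

theorem rho_add (hB : S_BRG) (z : SU R J) (w w' : J →₀ V) :
    rho R V J z (w + w') = rho R V J z w + rho R V J z w' := by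
  ext i
  rw [Finsupp.add_apply, hB, hB, hB, ← Finset.sum_add_distrib]
  refine Finset.sum_congr rfl fun j _ => ?_
  rw [Finsupp.add_apply, smul_add]

theorem rho_inj (hB : S_BRG) (hV : ∀ r : R, (∀ v : V, r • v = 0) → r = 0)
    (hinj : Function.Injective (mt R J)) : Function.Injective (rho R V J) := by
  rw [injective_iff_map_eq_one]
  intro z hz
  apply hinj
  rw [map_one]
  apply Units.ext
  ext i j
  rw [Units.val_one, Matrix.one_apply]
  have h1 : ∀ v : V, ((mt R J z).val i j - if i = j then 1 else 0) • v = 0 := by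
    intro v
    have h2 := (fix_iff hB z j v).1 (by rw [hz]; rfl) i
    rw [sub_smul, h2]
    by_cases hi : i = j
    · rw [if_pos hi, if_pos hi, one_smul, sub_self]
    · rw [if_neg hi, if_neg hi, zero_smul, sub_self]
  exact sub_eq_zero.1 (hV _ h1)

end

/-- the stabilizer of a vector -/
theorem stb (hSTI : S_STI) (hRHF : S_RHF) (hBRG : S_BRG) (hBLK : S_BLK) (hHDD : S_HDD)
    (hMRG : S_MRG) (hRED : S_RED) (R V K : Type) [Ring R] [AddCommGroup V] [Module R V]
    [Fintype K] [DecidableEq K] (hR : Nice R) (hK : 3 ≤ Fintype.card K)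
    (hinj : Function.Injective (mt R (Option K)))
    (hV : ∀ r : R, (∀ v : V, r • v = 0) → r = 0) (v0 : V) (o : K) (z : SU R (Option K))
    (hz : rho R V (Option K) z (Finsupp.single (some o) v0) = Finsupp.single (some o) v0) :
    z ∈ PV R V (Option K) v0 (some o) := by
  obtain ⟨p, hp, p', hp', g₁, h1, h2, h3, h4, h5⟩ :=
    hRED R V K v0 o hR.pi hR.nt (by omega) (mt R (Option K) z) ((fix_iff hBRG z (some o) v0).1 hz)
  obtain ⟨z₁, hz₁⟩ := gle T_GLR.t T_GLD.t R K hR.sw hR.pi hR.nt (by omega) g₁
  have fix : rho R V K z₁ (Finsupp.single o v0) = Finsupp.single o v0 := by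
    rw [fix_iff hBRG, hz₁]
    exact h1
  obtain ⟨z', hz', hze⟩ := hMRG R V K v0 o hR.lv
    (hSTI R V (Option K ⊕ ℕ) v0 (.inl (some o)) hR.two (hRHF R V _ hR.sw hV))
    (hHDD R K o hR.sw hK) z₁ fix
  obtain ⟨b1, b2, b3, b4⟩ := hBLK R K z₁
  have e : mt R (Option K) (io R K z₁) = mt R (Option K) p * mt R (Option K) z *
      mt R (Option K) p' := by
    apply Units.ext
    ext i j
    rcases i with _ | i <;> rcases j with _ | j
    · rw [b4, h5]
    · rw [b3, h4]
    · rw [b2, h3]
    · rw [b1, h2, hz₁]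
  have e2 : z' = p * z * p' := by
    apply hinj
    rw [hze, e, map_mul, map_mul]
  have e3 : z = p⁻¹ * z' * p'⁻¹ := by
    rw [e2]; group
  rw [e3]
  exact Subgroup.mul_mem _ (Subgroup.mul_mem _ (Subgroup.inv_mem _ hp) hz')
    (Subgroup.inv_mem _ hp')

theorem olig (hSTI : S_STI) (hRHF : S_RHF) (hBRG : S_BRG) (hBLK : S_BLK) (hHDD : S_HDD)
    (hMRG : S_MRG) (hRED : S_RED) (hFGV : S_FGV) (hANN : S_ANN) (hTRK : S_TRK)
    (hIDP : S_IDP) (hINV : S_INV) (hOLG : S_OLG) (R V : Type) [Ring R] [Algebra (ZMod 2) R]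
    [AddCommGroup V] [Module R V] (v0 : V) (hfp : FPA R) (hR : Nice R) (hG : Good R V v0)
    (hgf : Group.FG (SU R J10)) :
    Infinite (J10 →₀ V) ∧ Function.Injective (rho R V J10) ∧
    (∀ k : ℕ, (Set.range (fun x : Fin k → (J10 →₀ V) =>
      {y : Fin k → (J10 →₀ V) | ∃ g : SU R J10, y = fun i => rho R V J10 g (x i)})).Finite) ∧
    ∀ F : Finset (J10 →₀ V), ((⨅ a ∈ F, MulAction.stabilizer (Equiv.Perm (J10 →₀ V)) a).comap
      (rho R V J10)).FG := by
  classical
  have hinj := mt_inj hR
  have hV := hG.faithful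
  have hinf : Infinite V := hINV R V hR.nt hR.lv hV
  have hVV : ∀ v : V, v + v = 0 := by
    intro v
    have h := congrArg (fun r : R => r • v) hR.two
    simp only [zero_smul] at h
    rw [← one_add_one_eq_two, add_smul, one_smul] at h
    exact h
  have hX : ∀ x : J10 →₀ V, x + x = 0 := by
    intro x
    ext i
    exact hVV _
  have hinfX : Infinite (J10 →₀ V) := by
    apply Infinite.of_injective (fun v : V => (Finsupp.single none v : J10 →₀ V))
    exact Finsupp.single_injective none
  let oK : Option (Fin 8) := none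
  refine ⟨hinfX, rho_inj hBRG hV hinj, hOLG (SU R J10) (J10 →₀ V) (rho R V J10) hX
    (fun g x y => rho_add hBRG g x y) hgf ?_ ?_⟩
  · intro k w w' hw hw'
    obtain ⟨b, hb⟩ := hIDP V hVV k
    obtain ⟨z, hz⟩ := hTRK R V J10 v0 hG hinf (by decide) k w b none hw hb
    obtain ⟨z', hz'⟩ := hTRK R V J10 v0 hG hinf (by decide) k w' b none hw' hb
    refine ⟨z'⁻¹ * z, fun i => ?_⟩
    rw [map_mul, Equiv.Perm.mul_apply, hz, ← hz', map_inv, inv_app]
  · intro k w hw
    obtain ⟨b, hb⟩ := hIDP V hVV (k + 1)
    obtain ⟨z, hz⟩ := hTRK R V J10 v0 hG hinf (by decide) (k + 1) w b (some oK) hw hb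
    have hV' : ∀ r : R, (∀ v : Fin (k + 1) → V, r • v = 0) → r = 0 := by
      intro r hr
      apply hV
      intro v
      exact congrFun (hr fun _ => v) 0
    have hfix : ∀ g : SU R J10, (∀ i, rho R V J10 g (Finsupp.single (some oK) (b i)) =
        Finsupp.single (some oK) (b i)) ↔ g ∈ PV R (Fin (k + 1) → V) J10 b (some oK) := by
      intro g
      constructor
      · intro h
        refine stb hSTI hRHF hBRG hBLK hHDD hMRG hRED R (Fin (k + 1) → V) (Option (Fin 8)) hR
          (by decide) hinj hV' b oK g ?_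
        rw [fix_iff hBRG]
        intro j
        funext i
        have h2 := (fix_iff hBRG g (some oK) (b i)).1 (h i) j
        rw [Pi.smul_apply, h2]
        by_cases hj : j = some oK
        · rw [if_pos hj, if_pos hj]
        · rw [if_neg hj, if_neg hj]; rfl
      · intro h i
        have h3 : PV R (Fin (k + 1) → V) J10 b (some oK) ≤ (MulAction.stabilizer
            (Equiv.Perm (J10 →₀ V)) (Finsupp.single (some oK) (b i))).comap (rho R V J10) := by
          rw [PV, Subgroup.closure_le]
          rintro _ ⟨p, q, r, hpq, hqr, rfl⟩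
          show rho R V J10 (xs p q r) (Finsupp.single (some oK) (b i)) =
            Finsupp.single (some oK) (b i)
          rw [rho, lift0_xs, el_apply hpq]
          rcases hqr with hq | hr
          · rw [Finsupp.single_eq_of_ne hq, smul_zero, Finsupp.single_zero, add_zero]
          · by_cases hq : q = some oK
            · rw [hq, Finsupp.single_eq_same]
              have h4 : r • b i = 0 := congrFun hr i
              rw [h4, Finsupp.single_zero, add_zero]
            · rw [Finsupp.single_eq_of_ne hq, smul_zero, Finsupp.single_zero, add_zero]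
        exact h3 h
    have hFG : (PV R (Fin (k + 1) → V) J10 b (some oK)).FG := by
      obtain ⟨T, hT, hT2⟩ := hANN R V v0 hG (k + 1) b
      exact hFGV R (Fin (k + 1) → V) J10 b (some oK) (by decide) hfp ⟨T, hT, hT2⟩
    have hmap : ((⨅ i, MulAction.stabilizer (Equiv.Perm (J10 →₀ V)) (w i)).comap
        (rho R V J10)) = (PV R (Fin (k + 1) → V) J10 b (some oK)).map
          (MulAut.conj z⁻¹).toMonoidHom := by
      ext g
      rw [Subgroup.mem_comap, Subgroup.mem_iInf]
      constructor
      · intro h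
        refine ⟨z * g * z⁻¹, (hfix _).1 fun i => ?_, ?_⟩
        · rw [map_mul, map_mul, Equiv.Perm.mul_apply, Equiv.Perm.mul_apply, ← hz, map_inv,
            inv_app]
          have h5 : rho R V J10 g (w i) = w i := h i
          rw [h5]
        · show z⁻¹ * (z * g * z⁻¹) * z⁻¹⁻¹ = g
          group
      · rintro ⟨g', hg', rfl⟩ i
        show rho R V J10 (z⁻¹ * g' * z⁻¹⁻¹) (w i) = w i
        have h6 := (hfix g').2 hg' i
        rw [inv_inv, map_mul, map_mul, Equiv.Perm.mul_apply, Equiv.Perm.mul_apply, hz, h6, ← hz,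
          map_inv, inv_app]
    rw [hmap]
    exact fg_map hFG _

end Pool.Agent.H318.BR
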