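import Pool.Agent.H318.BR.Stm

/-!
# Project BR: annihilators of tuples are finitely generated (task ANN)
-/

set_option autoImplicit false

namespace Pool.Agent.H318.BR.T_ANN

open Y208.BH Pool.Agent.H318.BQ Pool.Agent.H318.BR

section

variable {R V : Type} [Ring R] [AddCommGroup V] [Module R V]

/-- the module is finitely presented -/
theorem fp {v0 : V} (h : Good R V v0) : Module.FinitePresentation R V := by
  have hsurj : Function.Surjective (LinearMap.toSpanSingleton R V v0) := by
    intro u
    obtain ⟨r, hr⟩ := h.tr1 v0 u h.v0ne
    exact ⟨r, by rw [LinearMap.toSpanSingleton_apply, hr]⟩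
  have hker : (LinearMap.ker (LinearMap.toSpanSingleton R V v0)).FG := by
    obtain ⟨T, hT1, hT2⟩ := h.ann
    refine ⟨T, le_antisymm ?_ ?_⟩
    · rw [Submodule.span_le]
      intro t ht
      rw [SetLike.mem_coe, LinearMap.mem_ker, LinearMap.toSpanSingleton_apply]
      exact hT1 t ht
    · intro r hr
      rw [LinearMap.mem_ker, LinearMap.toSpanSingleton_apply] at hr
      exact hT2 r hr
  exact Module.finitePresentation_of_surjective (LinearMap.toSpanSingleton R V v0) hsurj hker

/-- the annihilator of a tuple is finitely generated -/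
theorem fg_ann {v0 : V} (h : Good R V v0) : ∀ (k : ℕ) (v : Fin k → V),
    (LinearMap.ker (LinearMap.toSpanSingleton R (Fin k → V) v)).FG := by
  have hfp := fp h
  intro k
  induction k with
  | zero =>
    intro v
    have e : LinearMap.ker (LinearMap.toSpanSingleton R (Fin 0 → V) v) = ⊤ := by
      rw [eq_top_iff]
      intro r _
      rw [LinearMap.mem_ker]
      exact Subsingleton.elim _ _
    rw [e]
    exact Module.Finite.fg_top
  | succ k ih =>
    intro v
    set v' : Fin k → V := fun i => v i.castSucc with hv'
    have hK := ih v'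
    set K := LinearMap.ker (LinearMap.toSpanSingleton R (Fin k → V) v') with hKdef
    have hmemK : ∀ r : R, r ∈ K ↔ ∀ i : Fin k, r • v i.castSucc = 0 := by
      intro r
      rw [hKdef, LinearMap.mem_ker, LinearMap.toSpanSingleton_apply]
      constructor
      · intro h1 i
        exact congrFun h1 i
      · intro h1
        funext i
        exact h1 i
    have hmemK' : ∀ r : R, r ∈ LinearMap.ker (LinearMap.toSpanSingleton R (Fin (k + 1) → V) v) ↔
        (∀ i : Fin k, r • v i.castSucc = 0) ∧ r • v (Fin.last k) = 0 := by
      intro r
      rw [LinearMap.mem_ker, LinearMap.toSpanSingleton_apply]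
      constructor
      · intro h1
        exact ⟨fun i => congrFun h1 i.castSucc, congrFun h1 (Fin.last k)⟩
      · rintro ⟨h1, h2⟩
        funext i
        refine Fin.lastCases ?_ ?_ i
        · exact h2
        · exact h1
    set f : K →ₗ[R] V := (LinearMap.toSpanSingleton R V (v (Fin.last k))).comp K.subtype with hf
    have hfa : ∀ r : K, f r = (r : R) • v (Fin.last k) := fun r => by
      rw [hf, LinearMap.comp_apply, LinearMap.toSpanSingleton_apply]
      rfl
    by_cases h0 : ∀ r : K, f r = 0
    · have e : LinearMap.ker (LinearMap.toSpanSingleton R (Fin (k + 1) → V) v) = K := by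
        ext r
        rw [hmemK', hmemK]
        constructor
        · exact fun h1 => h1.1
        · intro h1
          refine ⟨h1, ?_⟩
          have h2 := h0 ⟨r, (hmemK r).2 h1⟩
          rwa [hfa] at h2
      rw [e]
      exact hK
    · rw [not_forall] at h0
      obtain ⟨r0, hr0⟩ := h0
      have hsurj : Function.Surjective f := by
        intro u
        obtain ⟨r, hr⟩ := h.tr1 (f r0) u hr0
        exact ⟨r • r0, by rw [map_smul, hr]⟩
      have hfin : Module.Finite R K := Module.Finite.iff_fg.2 hK
      have hker : (LinearMap.ker f).FG := Module.FinitePresentation.fg_ker f hsurj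
      have e : LinearMap.ker (LinearMap.toSpanSingleton R (Fin (k + 1) → V) v) =
          (LinearMap.ker f).map K.subtype := by
        ext r
        rw [hmemK', Submodule.mem_map]
        constructor
        · rintro ⟨h1, h2⟩
          refine ⟨⟨r, (hmemK r).2 h1⟩, ?_, rfl⟩
          rw [LinearMap.mem_ker, hfa]
          exact h2
        · rintro ⟨s, hs, rfl⟩
          rw [LinearMap.mem_ker, hfa] at hs
          exact ⟨(hmemK s).1 s.2, hs⟩
      rw [e]
      exact hker.map _

end

theorem t0 : S_ANN := by
  intro R V _ _ _ v0 h k v
  obtain ⟨T, hT⟩ := fg_ann h k v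
  refine ⟨T, ?_, ?_⟩
  · intro t ht
    have h1 : t ∈ LinearMap.ker (LinearMap.toSpanSingleton R (Fin k → V) v) := by
      rw [← hT]
      exact Submodule.subset_span ht
    rwa [LinearMap.mem_ker, LinearMap.toSpanSingleton_apply] at h1
  · intro r hr
    rw [hT, LinearMap.mem_ker, LinearMap.toSpanSingleton_apply]
    exact hr

theorem t (_ : S_DEN) : S_ANN := t0

end Pool.Agent.H318.BR.T_ANN
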