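import Pool.Agent.H318.BR.Stm
import Pool.Agent.H318.BQ.T_PKT

/-!
# Project BR: task BLK (block matrices), by helper118
-/

set_option autoImplicit false

namespace Pool.Agent.H318.BR.T_BLK

open Y208.BH Pool.Agent.H318.BQ

theorem t : Pool.Agent.H318.BR.S_BLK := by
  intro R K _ _ _ z
  have h := Pool.Agent.H318.BQ.T_PKT.mt_io z
  refine ⟨fun i j => ?_, fun i => ?_, fun j => ?_, ?_⟩
  · rw [h]
    rfl
  · rw [h]
    rfl
  · rw [h]
    rfl
  · rw [h]
    rfl

end Pool.Agent.H318.BR.T_BLK
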