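import Pool.Agent.H318.BR.Stm

/-!
# Project BR: task BRG (the action by matrices)
-/

set_option autoImplicit false

namespace Pool.Agent.H318.BR.T_BRG

open Y208.BH
open Pool.Agent.H318.BQ

section
variable {R V I : Type} [Ring R] [AddCommGroup V] [Module R V] [Fintype I] [DecidableEq I]

/-- matrix times vector -/
def mv (A : Matrix I I R) (w : I → V) : I → V := fun i => ∑ j, A i j • w j

theorem mv_one (w : I → V) : mv (1 : Matrix I I R) w = w := by
  funext i
  unfold mv
  rw [Finset.sum_eq_single i]
  · rw [Matrix.one_apply_eq, one_smul]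
  · intro l _ hl
    rw [Matrix.one_apply_ne hl.symm, zero_smul]
  · intro hj
    exact absurd (Finset.mem_univ i) hj

omit [DecidableEq I] in
theorem mv_mul (A B : Matrix I I R) (w : I → V) : mv (A * B) w = mv A (mv B w) := by
  funext i
  unfold mv
  simp only [Matrix.mul_apply, Finset.sum_smul, Finset.smul_sum, mul_smul]
  rw [Finset.sum_comm]

theorem key (z : SU R I) : ∀ w : I →₀ V, (⇑(rho R V I z w) : I → V) = mv (mt R I z).val ⇑w := by
  have hz : z ∈ Subgroup.closure {z : SU R I | ∃ (i j : I) (r : R), i ≠ j ∧ z = xs i j r} := by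
    rw [closure_xs]
    exact Subgroup.mem_top z
  induction hz using Subgroup.closure_induction with
  | mem x hx =>
    obtain ⟨i, j, r, h, rfl⟩ := hx
    intro w
    rw [rho_xs, mt_xs, tv_val h, el_apply h]
    funext k
    rw [Finsupp.coe_add, Pi.add_apply]
    unfold mv
    simp only [Matrix.add_apply, add_smul, Finset.sum_add_distrib]
    have h1 := congrFun (mv_one (R := R) (⇑w : I → V)) k
    unfold mv at h1
    rw [h1]
    congr 1
    by_cases hk : k = i
    · subst hk
      rw [Finsupp.single_eq_same, Finset.sum_eq_single j]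
      · rw [Matrix.single_apply_same]
      · intro l _ hl
        rw [Matrix.single_apply_of_ne _ _ _ _ _ (fun hh => hl hh.2.symm), zero_smul]
      · intro hj
        exact absurd (Finset.mem_univ j) hj
    · rw [Finsupp.single_eq_of_ne hk]
      symm
      apply Finset.sum_eq_zero
      intro l _
      rw [Matrix.single_apply_of_ne _ _ _ _ _ (fun hh => hk hh.1.symm), zero_smul]
  | one =>
    intro w
    rw [map_one, map_one, Units.val_one, mv_one]
    rfl
  | mul x y _ _ hx hy =>
    intro w
    rw [map_mul, map_mul, Equiv.Perm.mul_apply, hx, hy, Units.val_mul, mv_mul]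
  | inv x _ hx =>
    intro w
    have h1 := hx (rho R V I x⁻¹ w)
    have h0 : rho R V I x (rho R V I x⁻¹ w) = w := by
      rw [← Equiv.Perm.mul_apply, ← map_mul, mul_inv_cancel, map_one]
      rfl
    rw [h0] at h1
    rw [map_inv (mt R I)]
    have h2 : mv ((mt R I x)⁻¹).val ⇑w =
        mv ((mt R I x)⁻¹).val (mv (mt R I x).val ⇑(rho R V I x⁻¹ w)) := by
      rw [← h1]
    rw [h2, ← mv_mul, Units.inv_mul, mv_one]

end

theorem t : Pool.Agent.H318.BR.S_BRG := by
  intro R V J _ _ _ _ _ z w i
  exact congrFun (key z w) i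

end Pool.Agent.H318.BR.T_BRG
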