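import Pool.Agent.H318.BR.Stm

/-! Density: by the Jacobson density theorem; the endomorphism ring of the module is `{0, 1}`. -/

set_option autoImplicit false

namespace Pool.Agent.H318.BR.T_DEN

open Y208.BH Pool.Agent.H318.BQ Pool.Agent.H318.BR

theorem t : Pool.Agent.H318.BR.S_DEN := by
  classical
  intro R V _ _ _ v0 hG k v u hv
  have h2 : ∀ x : V, 2 • x = 0 := fun x => by
    have h : (2 : R) • x = 0 := by rw [hG.two, zero_smul]
    rw [two_nsmul, ← two_smul R, h]
  letI : Module (ZMod 2) V := AddCommGroup.zmodModule h2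
  haveI : Nontrivial V := ⟨⟨v0, 0, hG.v0ne⟩⟩
  haveI : IsSimpleModule R V := by
    rw [isSimpleModule_iff_toSpanSingleton_surjective]
    exact ⟨inferInstance, fun m hm x => hG.tr1 m x hm⟩
  have hE : ∀ φ : Module.End R V, φ = 0 ∨ φ = 1 := by
    intro φ
    have h0 : ∀ w : V, w ≠ 0 → φ w = 0 ∨ φ w = w := by
      intro w hw
      by_contra hne
      have hne1 : φ w ≠ 0 := fun e => hne (Or.inl e)
      have hne2 : w ≠ φ w := fun e => hne (Or.inr e.symm)
      obtain ⟨r, h1, h3⟩ := hG.tr2 w (φ w) hw hne1 hne2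
      exact h3 (by rw [← map_smul, h1, map_zero])
    by_cases hφ : φ v0 = 0
    · left
      refine LinearMap.ext fun x => ?_
      obtain ⟨r, rfl⟩ := hG.tr1 v0 x hG.v0ne
      rw [map_smul, hφ]
      simp
    · right
      refine LinearMap.ext fun x => ?_
      obtain ⟨r, rfl⟩ := hG.tr1 v0 x hG.v0ne
      rw [map_smul, (h0 v0 hG.v0ne).resolve_left hφ]
      rfl
  have hli : LinearIndependent (ZMod 2) v := by
    rw [Fintype.linearIndependent_iff]
    intro g hg i
    by_contra hi
    refine hv (Finset.univ.filter fun i => g i ≠ 0) ⟨i, by simpa using hi⟩ ?_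
    rw [Finset.sum_filter]
    refine (Finset.sum_congr rfl fun j _ => ?_).trans hg
    by_cases hj : g j = 0
    · rw [if_neg (not_not.2 hj), hj, zero_smul]
    · have h1 : ∀ z : ZMod 2, z ≠ 0 → z = 1 := by decide
      simp [h1 _ hj]
  obtain ⟨f, hf⟩ : ∃ f : V →ₗ[ZMod 2] V, ∀ i, f (v i) = u i := by
    obtain ⟨f, hf⟩ := LinearMap.exists_extend ((Module.Basis.span hli).constr ℕ u)
    refine ⟨f, fun i => ?_⟩
    have h1 := congrArg (fun F => F (Module.Basis.span hli i)) hf
    simp only [Module.Basis.constr_basis, LinearMap.comp_apply] at h1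
    rw [← h1]
    congr 1
    exact (congrArg Subtype.val (Module.Basis.span_apply hli i)).symm
  let F : Module.End (Module.End R V) V :=
    { toFun := f
      map_add' := f.map_add
      map_smul' := fun φ x => by
        rcases hE φ with rfl | rfl <;> simp }
  obtain ⟨r, hr⟩ := jacobson_density (R := R) F (Finset.univ.image v)
  refine ⟨r, fun i => ?_⟩
  rw [← hr (v i) (Finset.mem_image_of_mem _ (Finset.mem_univ i))]
  exact hf i

end Pool.Agent.H318.BR.T_DEN
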