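import Pool.Agent.H318.BR.Stm

set_option autoImplicit false

open scoped commutatorElement

namespace Pool.Agent.H318.BR.T_FGV

open Y208.BH Pool.Agent.H318.BQ Pool.Agent.H318.BR

theorem xs_zero {R I : Type} [Ring R] (i j : I) : (xs i j 0 : SU R I) = 1 := by
  by_cases h : i = j
  · rw [h, xs_self]
  · have h1 := (st_xs R I).add i j h 0 0
    rw [add_zero] at h1
    exact left_eq_mul.1 h1

theorem comm_mem {G : Type} [Group G] (H : Subgroup G) {a b : G} (ha : a ∈ H) (hb : b ∈ H) : ⁅a, b⁆ ∈ H := by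
  rw [commutatorElement_def]
  exact H.mul_mem (H.mul_mem (H.mul_mem ha hb) (H.inv_mem ha)) (H.inv_mem hb)

theorem exists_new {J : Type} [Fintype J] (h : 4 ≤ Fintype.card J) (a b c : J) : ∃ s : J, s ≠ a ∧ s ≠ b ∧ s ≠ c := by
  classical
  by_contra hc
  push Not at hc
  have h1 : (Finset.univ : Finset J) ⊆ {a, b, c} := by
    intro s _
    simp only [Finset.mem_insert, Finset.mem_singleton]
    by_contra h2
    push Not at h2
    exact h2.2.2 (hc s h2.1 h2.2.1)
  have h2 := Finset.card_le_card h1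
  have h3 : ({a, b, c} : Finset J).card ≤ 3 := Finset.card_le_three
  rw [Finset.card_univ] at h2
  omega

theorem t : S_FGV := by
  intro R V J _ _ _ _ _ v0 o hJ hF hT
  classical
  obtain ⟨T, hT0, hT1⟩ := hT
  obtain ⟨n, φ, _, hφ, -⟩ := hF
  let A' : Set R := insert 1 (Set.range fun i => φ (FreeAlgebra.ι (ZMod 2) i))
  have hA' : A'.Finite := (Set.finite_range _).insert _
  let S : Set (SU R J) := {z | (∃ (p q : J), ∃ a ∈ A', p ≠ q ∧ q ≠ o ∧ z = xs p q a) ∨
    ∃ p : J, ∃ t ∈ T, p ≠ o ∧ z = xs p o t}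
  have hS : S.Finite := by
    have h1 : ((Set.univ : Set J) ×ˢ (Set.univ : Set J) ×ˢ (A' ∪ (T : Set R))).Finite :=
      Set.finite_univ.prod (Set.finite_univ.prod (hA'.union T.finite_toSet))
    refine (h1.image fun x => (xs x.1 x.2.1 x.2.2 : SU R J)).subset ?_
    rintro z (⟨p, q, a, ha, -, -, rfl⟩ | ⟨p, t, ht, -, rfl⟩)
    · exact ⟨(p, q, a), ⟨Set.mem_univ _, Set.mem_univ _, Or.inl ha⟩, rfl⟩
    · exact ⟨(p, o, t), ⟨Set.mem_univ _, Set.mem_univ _, Or.inr ht⟩, rfl⟩
  rw [Subgroup.fg_iff]
  refine ⟨S, ?_, hS⟩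
  apply le_antisymm
  · rw [Subgroup.closure_le]
    rintro z (⟨p, q, a, ha, h1, h2, rfl⟩ | ⟨p, t, ht, h1, rfl⟩)
    · exact Subgroup.subset_closure ⟨p, q, a, h1, Or.inl h2, rfl⟩
    · exact Subgroup.subset_closure ⟨p, o, t, h1, Or.inr (hT0 t ht), rfl⟩
  · have c1 : ∀ x : FreeAlgebra (ZMod 2) (Fin n), ∀ p q : J, p ≠ q → q ≠ o → xs p q (φ x) ∈ Subgroup.closure S := by
      intro x
      induction x using FreeAlgebra.induction with
      | grade0 c =>
        intro p q hpq hqo
        rw [AlgHom.commutes]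
        fin_cases c
        · have e : algebraMap (ZMod 2) R 0 = 0 := map_zero _
          change xs p q (algebraMap (ZMod 2) R 0) ∈ _
          rw [e, xs_zero]
          exact Subgroup.one_mem _
        · have e : algebraMap (ZMod 2) R 1 = 1 := map_one _
          change xs p q (algebraMap (ZMod 2) R 1) ∈ _
          rw [e]
          exact Subgroup.subset_closure (Or.inl ⟨p, q, 1, Or.inl rfl, hpq, hqo, rfl⟩)
      | grade1 i =>
        intro p q hpq hqo
        exact Subgroup.subset_closure (Or.inl ⟨p, q, _, Or.inr ⟨i, rfl⟩, hpq, hqo, rfl⟩)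
      | mul x y hx hy =>
        intro p q hpq hqo
        obtain ⟨s, hs1, hs2, hs3⟩ := exists_new hJ p q o
        rw [map_mul, ← (st_xs R J).mul p s q hs1.symm hs2 hpq]
        exact comm_mem _ (hx p s hs1.symm hs3) (hy s q hs2 hqo)
      | add x y hx hy =>
        intro p q hpq hqo
        rw [map_add, (st_xs R J).add p q hpq]
        exact Subgroup.mul_mem _ (hx p q hpq hqo) (hy p q hpq hqo)
    have c1' : ∀ r : R, ∀ p q : J, p ≠ q → q ≠ o → xs p q r ∈ Subgroup.closure S := by
      intro r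
      obtain ⟨x, rfl⟩ := hφ r
      exact c1 x
    have c2 : ∀ r ∈ Submodule.span R (T : Set R), ∀ p : J, p ≠ o → xs p o r ∈ Subgroup.closure S := by
      intro r hr
      induction hr using Submodule.span_induction with
      | mem t ht =>
        intro p hp
        exact Subgroup.subset_closure (Or.inr ⟨p, t, ht, hp, rfl⟩)
      | zero =>
        intro p hp
        rw [xs_zero]
        exact Subgroup.one_mem _
      | add x y _ _ hx hy =>
        intro p hp
        rw [(st_xs R J).add p o hp]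
        exact Subgroup.mul_mem _ (hx p hp) (hy p hp)
      | smul a x _ hx =>
        intro p hp
        obtain ⟨s, hs1, hs2, -⟩ := exists_new hJ p o o
        rw [smul_eq_mul, ← (st_xs R J).mul p s o hs1.symm hs2 hp]
        exact comm_mem _ (c1' a p s hs1.symm hs2) (hx s hs2)
    unfold PV
    rw [Subgroup.closure_le]
    rintro z ⟨p, q, r, hpq, h, rfl⟩
    by_cases hq : q = o
    · subst hq
      rcases h with h | h
      · exact absurd rfl h
      · exact c2 r (hT1 r h) p hpq
    · exact c1' r p q hpq hq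

end Pool.Agent.H318.BR.T_FGV
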