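import Pool.Agent.H318.BR.Stm
import Pool.Agent.H318.BQ.T_GLD

/-!
# Diagonal matrices in the subgroup which fixes a basis vector (task HDD)
-/

set_option autoImplicit false

namespace Pool.Agent.H318.BR.T_HDD

open Y208.BH
open Pool.Agent.H318.BQ

section
variable {R I : Type} [Ring R] [Fintype I] [DecidableEq I] (p : I → Prop) [DecidablePred p]

/-- the matrix extended by the identity -/
def emb (M : Matrix {x // p x} {x // p x} R) : Matrix I I R :=
  (Matrix.fromBlocks M 0 0 (1 : Matrix {x // ¬ p x} {x // ¬ p x} R)).submatrix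
    (Equiv.sumCompl p).symm (Equiv.sumCompl p).symm

omit [Fintype I] in
theorem emb_one : emb p (1 : Matrix {x // p x} {x // p x} R) = 1 := by
  unfold emb
  rw [Matrix.fromBlocks_one, Matrix.submatrix_one_equiv]

theorem emb_mul (M N : Matrix {x // p x} {x // p x} R) : emb p (M * N) = emb p M * emb p N := by
  unfold emb
  rw [Matrix.submatrix_mul_equiv, Matrix.fromBlocks_multiply]
  simp

/-- the homomorphism of monoids -/
def embH : Matrix {x // p x} {x // p x} R →* Matrix I I R where
  toFun := emb p
  map_one' := emb_one p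
  map_mul' := emb_mul p

omit [Fintype I] in
theorem emb_apply (M : Matrix {x // p x} {x // p x} R) (a b : I) :
    emb p M a b = if h : p a ∧ p b then M ⟨a, h.1⟩ ⟨b, h.2⟩ else if a = b then 1 else 0 := by
  unfold emb
  rw [Matrix.submatrix_apply]
  by_cases ha : p a
  · by_cases hb : p b
    · rw [Equiv.sumCompl_symm_apply_of_pos ha, Equiv.sumCompl_symm_apply_of_pos hb,
        Matrix.fromBlocks_apply₁₁, dif_pos ⟨ha, hb⟩]
    · rw [Equiv.sumCompl_symm_apply_of_pos ha, Equiv.sumCompl_symm_apply_of_neg hb,
        Matrix.fromBlocks_apply₁₂, dif_neg (fun h => hb h.2)]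
      have hab : a ≠ b := fun h => hb (h ▸ ha)
      rw [if_neg hab]
      rfl
  · by_cases hb : p b
    · rw [Equiv.sumCompl_symm_apply_of_neg ha, Equiv.sumCompl_symm_apply_of_pos hb,
        Matrix.fromBlocks_apply₂₁, dif_neg (fun h => ha h.1)]
      have hab : a ≠ b := fun h => ha (h ▸ hb)
      rw [if_neg hab]
      rfl
    · rw [Equiv.sumCompl_symm_apply_of_neg ha, Equiv.sumCompl_symm_apply_of_neg hb,
        Matrix.fromBlocks_apply₂₂, dif_neg (fun h => ha h.1), Matrix.one_apply]
      by_cases hab : a = b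
      · subst hab
        simp
      · rw [if_neg hab, if_neg]
        intro h
        exact hab (congrArg Subtype.val h)

theorem emb_tv {i j : {x // p x}} (h : i ≠ j) (r : R) :
    emb p (tv i j r).val = (tv (i : I) (j : I) r).val := by
  have h' : (i : I) ≠ j := fun e => h (Subtype.ext e)
  rw [tv_val h, tv_val h']
  ext a b
  rw [emb_apply]
  by_cases hab : p a ∧ p b
  · rw [dif_pos hab, Matrix.add_apply, Matrix.add_apply, Matrix.one_apply, Matrix.one_apply,
      Matrix.single_apply, Matrix.single_apply]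
    congr 1
    · simp only [Subtype.mk.injEq]
    · have h1 : (i = ⟨a, hab.1⟩ ∧ j = ⟨b, hab.2⟩) ↔ ((i : I) = a ∧ (j : I) = b) := by
        rw [Subtype.ext_iff, Subtype.ext_iff]
      by_cases h2 : (i : I) = a ∧ (j : I) = b
      · rw [if_pos h2, if_pos (h1.2 h2)]
      · rw [if_neg h2, if_neg (fun h3 => h2 (h1.1 h3))]
  · rw [dif_neg hab, Matrix.add_apply, Matrix.one_apply, Matrix.single_apply, if_neg (c := _ ∧ _),
      add_zero]
    rintro ⟨rfl, rfl⟩
    exact hab ⟨i.2, j.2⟩

theorem emb_dD (i0 : {x // p x}) (u : Rˣ) :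
    emb p (dD (I := {x // p x}) i0 u).val = (dD (I := I) (i0 : I) u).val := by
  ext a b
  rw [emb_apply]
  show _ = (Matrix.diagonal fun k => if k = (i0 : I) then (u : R) else 1) a b
  rw [Matrix.diagonal_apply]
  by_cases hab : p a ∧ p b
  · rw [dif_pos hab]
    show (Matrix.diagonal fun k => if k = i0 then (u : R) else 1) ⟨a, hab.1⟩ ⟨b, hab.2⟩ = _
    rw [Matrix.diagonal_apply]
    by_cases h1 : a = b
    · subst h1
      rw [if_pos rfl, if_pos rfl]
      by_cases h2 : a = (i0 : I)
      · rw [if_pos h2, if_pos (Subtype.ext h2)]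
      · rw [if_neg h2, if_neg (fun h3 => h2 (congrArg Subtype.val h3))]
    · rw [if_neg h1, if_neg (fun h3 => h1 (congrArg Subtype.val h3))]
  · rw [dif_neg hab]
    by_cases h1 : a = b
    · subst h1
      rw [if_pos rfl, if_pos rfl, if_neg]
      rintro rfl
      exact hab ⟨i0.2, i0.2⟩
    · rw [if_neg h1, if_neg h1]

/-- pushing forward and matrices -/
theorem mt_push : (mt R I).comp (mapSU (Subtype.val : {x // p x} → I) Subtype.val_injective
      (NonUnitalRingHom.id R)) = (Units.map (embH (R := R) p)).comp (mt R {x // p x}) := by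
  refine MonoidHom.eq_of_eqOn_dense (closure_xs R {x // p x}) ?_
  rintro _ ⟨i, j, r, h, rfl⟩
  rw [MonoidHom.comp_apply, MonoidHom.comp_apply, mapSU_xs, mt_xs, mt_xs]
  apply Units.ext
  rw [Units.coe_map]
  exact (emb_tv p h r).symm

end

theorem t : Pool.Agent.H318.BR.S_HDD := by
  classical
  intro R K _ _ _ o hsw hK u
  have hcard : 2 ≤ Fintype.card {j : Option K // j ≠ some o} := by
    have h1 : Fintype.card {j : Option K // j ≠ some o} = Fintype.card (Option K) - 1 := by
      rw [Fintype.card_subtype_compl, Fintype.card_subtype_eq]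
    rw [h1, Fintype.card_option]
    omega
  obtain ⟨z, hz⟩ := Pool.Agent.H318.BQ.T_GLD.t R {j : Option K // j ≠ some o} hsw hcard
    ⟨none, by simp⟩ u
  refine ⟨mapSU (Subtype.val : {j : Option K // j ≠ some o} → Option K) Subtype.val_injective
    (NonUnitalRingHom.id R) z, ?_, ?_⟩
  · have h1 : (⊤ : Subgroup (SU R {j : Option K // j ≠ some o})) ≤
        (Subgroup.closure {z : SU R (Option K) | ∃ (i j : Option K) (r : R), i ≠ j ∧
          j ≠ some o ∧ z = xs i j r}).comap
          (mapSU (Subtype.val : {j : Option K // j ≠ some o} → Option K) Subtype.val_injective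
            (NonUnitalRingHom.id R)) := by
      rw [← closure_xs R {j : Option K // j ≠ some o}, Subgroup.closure_le]
      rintro _ ⟨i, j, r, h, rfl⟩
      rw [SetLike.mem_coe, Subgroup.mem_comap, mapSU_xs]
      exact Subgroup.subset_closure ⟨i, j, _, fun e => h (Subtype.ext e), j.2, rfl⟩
    exact h1 (Subgroup.mem_top z)
  · have h1 := DFunLike.congr_fun (mt_push (R := R) (fun j : Option K => j ≠ some o)) z
    rw [MonoidHom.comp_apply, MonoidHom.comp_apply, hz] at h1
    have h2 : Units.map (embH (R := R) (fun j : Option K => j ≠ some o))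
        (dD (⟨none, by simp⟩ : {j : Option K // j ≠ some o}) u) = dD (none : Option K) u := by
      apply Units.ext
      rw [Units.coe_map]
      exact emb_dD (fun j : Option K => j ≠ some o) ⟨none, by simp⟩ u
    rw [h2] at h1
    convert h1

end Pool.Agent.H318.BR.T_HDD
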