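import Pool.Agent.H318.BR.Stm

/-!
# Project BR, task IDP (helper538): independent tuples exist
-/

set_option autoImplicit false

namespace Pool.Agent.H318.BR.T_IDP

theorem t : Pool.Agent.H318.BR.S_IDP := by
  intro V _ _ h2 k
  classical
  induction k with
  | zero =>
    refine ⟨Fin.elim0, fun s hs => ?_⟩
    obtain ⟨i, _⟩ := hs
    exact i.elim0
  | succ k ih =>
    obtain ⟨b, hb⟩ := ih
    -- the subset sums
    obtain ⟨c, hc⟩ := Infinite.exists_notMem_finset
      ((Finset.univ : Finset (Finset (Fin k))).image fun s => ∑ i ∈ s, b i)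
    refine ⟨Fin.snoc b c, fun s hs h0 => ?_⟩
    -- the part of `s` below the last index
    set s' : Finset (Fin k) := Finset.univ.filter fun i => i.castSucc ∈ s with hs'
    have hsum : ∑ i ∈ s, (Fin.snoc b c : Fin (k + 1) → V) i =
        (∑ i ∈ s', b i) + if Fin.last k ∈ s then c else 0 := by
      have e1 : ∑ i ∈ s, (Fin.snoc b c : Fin (k + 1) → V) i =
          ∑ i : Fin (k + 1), if i ∈ s then (Fin.snoc b c : Fin (k + 1) → V) i else 0 := by
        rw [Finset.sum_ite_mem, Finset.univ_inter]
      rw [e1, Fin.sum_univ_castSucc, hs', Finset.sum_filter]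
      simp only [Fin.snoc_castSucc, Fin.snoc_last]
    rw [hsum] at h0
    by_cases hl : Fin.last k ∈ s
    · rw [if_pos hl] at h0
      apply hc
      rw [Finset.mem_image]
      refine ⟨s', Finset.mem_univ _, ?_⟩
      have h3 := eq_neg_of_add_eq_zero_left h0
      rw [h3]
      exact neg_eq_of_add_eq_zero_left (h2 c)
    · rw [if_neg hl, add_zero] at h0
      refine hb s' ?_ h0
      obtain ⟨i, hi⟩ := hs
      have hne : i ≠ Fin.last k := fun h => hl (h ▸ hi)
      obtain ⟨j, rfl⟩ := Fin.exists_castSucc_eq.2 hne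
      exact ⟨j, by rw [hs', Finset.mem_filter]; exact ⟨Finset.mem_univ _, hi⟩⟩
end Pool.Agent.H318.BR.T_IDP
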