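import Pool.Agent.H318.BR.Stm

set_option autoImplicit false

namespace Pool.Agent.H318.BR.T_INV

theorem t : Pool.Agent.H318.BR.S_INV := by
  intro R V _ _ _ h1 hL hf
  by_contra hV
  rw [not_infinite_iff_finite] at hV
  have hinj : Function.Injective (fun (r : R) (v : V) => r • v) := by
    intro r s h
    have h2 : ∀ v : V, (r - s) • v = 0 := by
      intro v
      rw [sub_smul, sub_eq_zero]
      exact congrFun h v
    exact sub_eq_zero.1 (hf _ h2)
  have hR : Finite R := Finite.of_injective _ hinj
  obtain ⟨e, s, e', s', h11, h22, h12, h21, h3⟩ := hL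
  have hi : Function.Injective (fun x : R => e * x) := by
    intro x y h
    have h' : e * x = e * y := h
    have : e' * (e * x) = e' * (e * y) := by rw [h']
    rwa [← mul_assoc, ← mul_assoc, h11, one_mul, one_mul] at this
  obtain ⟨y, hy⟩ := (Finite.injective_iff_surjective.1 hi) 1
  have hy' : e * y = 1 := hy
  have h4 : y = e' := by
    have : e' * (e * y) = e' * 1 := by rw [hy']
    rwa [← mul_assoc, h11, one_mul, mul_one] at this
  rw [h4] at hy'
  have h5 : s = 0 := by
    have : e * (e' * s) = e * 0 := by rw [h12]
    rwa [← mul_assoc, hy', one_mul, mul_zero] at this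
  rw [h5, mul_zero] at h22
  exact h1 h22.symm

end Pool.Agent.H318.BR.T_INV
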