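import Pool.Agent.H318.BR.Stm

/-!
# Project BR, task MRG: merging infinitely many indices to one index
-/

set_option autoImplicit false
set_option linter.unusedSectionVars false
set_option linter.unusedSimpArgs false

open scoped commutatorElement

namespace Pool.Agent.H318.BR.T_MRG

open Y208.BH Pool.Agent.H318.BQ Pool.Agent.H318.BR

/-- merging data -/
structure MD (R I J : Type) [Ring R] where
  f : I → J
  A : I → R
  A' : I → R
  h1 : ∀ p, A' p * A p = 1
  h0 : ∀ p q, f p = f q → p ≠ q → A' p * A q = 0

section
variable {R I J : Type} [Ring R] [Fintype J] [DecidableEq J] (d : MD R I J)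

/-- the matrix units -/
def mm (p q : I) (r : R) : Matrix J J R := Matrix.single (d.f p) (d.f q) (d.A p * r * d.A' q)

theorem mm_add (p q : I) (a b : R) : mm d p q (a + b) = mm d p q a + mm d p q b := by
  unfold mm
  rw [mul_add, add_mul, Matrix.single_add]

theorem mm_ne (p q p' q' : I) (a b : R) (h : q ≠ p') : mm d p q a * mm d p' q' b = 0 := by
  unfold mm
  by_cases e : d.f q = d.f p'
  · rw [← e, Matrix.single_mul_single_same]
    have : d.A p * a * d.A' q * (d.A p' * b * d.A' q') = 0 := by
      calc d.A p * a * d.A' q * (d.A p' * b * d.A' q')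
          = d.A p * a * (d.A' q * d.A p') * (b * d.A' q') := by noncomm_ring
        _ = 0 := by rw [d.h0 q p' e h, mul_zero, zero_mul]
    rw [this, Matrix.single_zero]
  · rw [Matrix.single_mul_single_of_ne _ _ _ _ e]

theorem mm_same (p q q' : I) (a b : R) : mm d p q a * mm d q q' b = mm d p q' (a * b) := by
  unfold mm
  rw [Matrix.single_mul_single_same]
  congr 1
  calc d.A p * a * d.A' q * (d.A q * b * d.A' q')
      = d.A p * a * (d.A' q * d.A q) * (b * d.A' q') := by noncomm_ring
    _ = d.A p * (a * b) * d.A' q' := by rw [d.h1 q, mul_one]; noncomm_ring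

open Classical in
/-- the images of the elementary matrices -/
noncomputable def yy (p q : I) (r : R) : (Matrix J J R)ˣ :=
  if h : p = q then 1 else
  { val := 1 + mm d p q r
    inv := 1 - mm d p q r
    val_inv := by
      rw [add_mul, mul_sub, mul_sub, one_mul, one_mul, mul_one, mm_ne d _ _ _ _ _ _ (Ne.symm h)]
      abel
    inv_val := by
      rw [sub_mul, mul_add, mul_add, one_mul, one_mul, mul_one, mm_ne d _ _ _ _ _ _ (Ne.symm h)]
      abel }

theorem yy_self (p : I) (r : R) : yy d p p r = 1 := by simp [yy]

theorem yy_val {p q : I} (h : p ≠ q) (r : R) : (yy d p q r).val = 1 + mm d p q r := by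
  simp [yy, h]

theorem st_yy : St (fun p q r => yy d p q r : I → I → R → (Matrix J J R)ˣ) where
  add i j h a b := by
    apply Units.ext
    simp only [Units.val_mul, yy_val d h, mul_add, add_mul, one_mul, mul_one, mm_add,
      mm_ne d _ _ _ _ _ _ (Ne.symm h)]
    abel
  mul i j k h1 h2 h3 a b := by
    rw [commutatorElement_def, mul_inv_eq_iff_eq_mul, mul_inv_eq_iff_eq_mul]
    apply Units.ext
    simp only [Units.val_mul, yy_val d h1, yy_val d h2, yy_val d h3, mul_add, add_mul, one_mul,
      mul_one, mm_same, mm_ne d _ _ _ _ _ _ (Ne.symm h3),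
      mm_ne d _ _ _ _ _ _ (Ne.symm h1), mm_ne d _ _ _ _ _ _ (Ne.symm h2), zero_mul, add_zero]
    abel
  comm i j k l h1 h2 h3 h4 a b := by
    apply Units.ext
    simp only [Units.val_mul, yy_val d h1, yy_val d h2, mul_add, add_mul, one_mul, mul_one,
      mm_ne d _ _ _ _ _ _ h3, mm_ne d _ _ _ _ _ _ (Ne.symm h4)]
    abel

/-- the merging homomorphism -/
noncomputable def Ps : SU R I →* (Matrix J J R)ˣ :=
  lift0 (fun p q r => yy d p q r) (st_yy d) (yy_self d)

theorem Ps_xs (p q : I) (r : R) : Ps d (xs p q r) = yy d p q r := lift0_xs _ _ _ p q r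

end

/-! ## The data -/

section
variable {R : Type} [Ring R]

theorem pw1 {s s' : R} (h : s' * s = 1) (c : ℕ) : s' ^ c * s ^ c = 1 := by
  induction c with
  | zero => simp
  | succ c ih =>
    calc s' ^ (c + 1) * s ^ (c + 1) = s' ^ c * (s' * s) * s ^ c := by
          rw [pow_succ, pow_succ']
          noncomm_ring
      _ = 1 := by rw [h, mul_one, ih]

theorem tt_same {e s e' s' : R} (h1 : e' * e = 1) (h2 : s' * s = 1) (c : ℕ) :
    (e' * s' ^ c) * (s ^ c * e) = 1 := by
  calc (e' * s' ^ c) * (s ^ c * e) = e' * (s' ^ c * s ^ c) * e := by noncomm_ring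
    _ = 1 := by rw [pw1 h2, mul_one, h1]

theorem tt_ne {e s e' s' : R} (h2 : s' * s = 1) (h3 : e' * s = 0)
    (h4 : s' * e = 0) (c c' : ℕ) (h : c ≠ c') : (e' * s' ^ c) * (s ^ c' * e) = 0 := by
  rcases lt_or_gt_of_ne h with h | h
  · obtain ⟨k, rfl⟩ := Nat.exists_eq_add_of_lt h
    have e1 : s ^ (c + k + 1) = s ^ c * (s * s ^ k) := by
      rw [← pow_succ', ← pow_add]
      rfl
    rw [e1]
    calc (e' * s' ^ c) * (s ^ c * (s * s ^ k) * e) = e' * (s' ^ c * s ^ c) * s * s ^ k * e := by
          noncomm_ring
      _ = (e' * s) * s ^ k * e := by rw [pw1 h2, mul_one]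
      _ = 0 := by rw [h3, zero_mul, zero_mul]
  · obtain ⟨k, rfl⟩ := Nat.exists_eq_add_of_lt h
    have e1 : s' ^ (c' + k + 1) = s' ^ k * s' * s' ^ c' := by
      rw [← pow_succ, ← pow_add]
      congr 1
      omega
    rw [e1]
    calc (e' * (s' ^ k * s' * s' ^ c')) * (s ^ c' * e)
        = e' * s' ^ k * s' * (s' ^ c' * s ^ c') * e := by
          noncomm_ring
      _ = e' * s' ^ k * (s' * e) := by rw [pw1 h2, mul_one]; noncomm_ring
      _ = 0 := by rw [h4, mul_zero]

/-- the data -/
def md (K : Type) (e s e' s' : R) (h1 : e' * e = 1) (h2 : s' * s = 1) (h3 : e' * s = 0)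
    (h4 : s' * e = 0) : MD R (Option K ⊕ ℕ) (Option K) where
  f p := match p with
    | .inl a => a
    | .inr _ => none
  A p := match p with
    | .inl (some _) => 1
    | .inl none => s ^ 0 * e
    | .inr c => s ^ (c + 1) * e
  A' p := match p with
    | .inl (some _) => 1
    | .inl none => e' * s' ^ 0
    | .inr c => e' * s' ^ (c + 1)
  h1 p := by
    rcases p with (_ | a) | c
    · exact tt_same h1 h2 0
    · exact one_mul 1
    · exact tt_same h1 h2 (c + 1)
  h0 p q hf hpq := by
    rcases p with (_ | a) | c
    · rcases q with (_ | b) | c'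
      · exact absurd rfl hpq
      · simp at hf
      · exact tt_ne h2 h3 h4 0 (c' + 1) (by omega)
    · rcases q with (_ | b) | c'
      · simp at hf
      · simp only [Option.some.injEq] at hf
        subst hf
        exact absurd rfl hpq
      · simp at hf
    · rcases q with (_ | b) | c'
      · exact tt_ne h2 h3 h4 (c + 1) 0 (by omega)
      · simp at hf
      · refine tt_ne h2 h3 h4 (c + 1) (c' + 1) ?_
        intro h
        apply hpq
        have : c = c' := by omega
        rw [this]

end

/-! ## Equivariance -/

theorem rho_map {R V K I : Type} [Ring R] [AddCommGroup V] [Module R V] (τ : K → I)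
    (hτ : Function.Injective τ) (z : SU R K) : ∀ w : K →₀ V,
    rho R V I (mapSU τ hτ (NonUnitalRingHom.id R) z) (Finsupp.mapDomain τ w)
      = Finsupp.mapDomain τ (rho R V K z w) := by
  have hz : z ∈ Subgroup.closure {z : SU R K | ∃ (i j : K) (r : R), i ≠ j ∧ z = xs i j r} := by
    rw [closure_xs]
    exact Subgroup.mem_top _
  induction hz using Subgroup.closure_induction with
  | mem x hx =>
    obtain ⟨i, j, r, hij, rfl⟩ := hx
    intro w
    rw [mapSU_xs, rho_xs, rho_xs, el_apply hij, el_apply (hτ.ne hij), Finsupp.mapDomain_add,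
      Finsupp.mapDomain_single, Finsupp.mapDomain_apply hτ]
    rfl
  | one =>
    intro w
    rw [map_one, map_one, map_one]
    rfl
  | mul x y _ _ hx hy =>
    intro w
    rw [map_mul, map_mul, map_mul, Equiv.Perm.mul_apply, Equiv.Perm.mul_apply, hy, hx]
  | inv x _ hx =>
    intro w
    have h1 := hx ((rho R V K x).symm w)
    rw [Equiv.apply_symm_apply] at h1
    rw [map_inv, map_inv, map_inv, ← h1]
    change (rho R V I (mapSU τ hτ (NonUnitalRingHom.id R) x)).symm _ = Finsupp.mapDomain τ
      ((rho R V K x).symm w)
    rw [Equiv.symm_apply_apply]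

theorem t : Pool.Agent.H318.BR.S_MRG := by
  intro R V K _ _ _ _ _ v0 o hL hPV hdD z hz
  obtain ⟨e, s, e', s', h1, h2, h3, h4, -⟩ := hL
  let d := md K e s e' s' h1 h2 h3 h4
  let τ : K → Option K ⊕ ℕ := fun k => Sum.inl (some k)
  have hτ : Function.Injective τ := fun a b hab => Option.some_injective _ (Sum.inl_injective hab)
  -- Claim 1
  have c1 : (Ps d).comp (mapSU τ hτ (NonUnitalRingHom.id R)) = (mt R (Option K)).comp (io R K) := by
    refine PresentedGroup.ext ?_
    rintro ⟨i, j, r⟩
    change (Ps d) (mapSU τ hτ (NonUnitalRingHom.id R) (xs i j r))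
      = mt R (Option K) (io R K (xs i j r))
    rw [io, mapSU_xs, mapSU_xs, Ps_xs, mt_xs]
    by_cases hij : i = j
    · rw [hij, yy_self, tv_self]
    · apply Units.ext
      rw [yy_val d (hτ.ne hij), tv_val (fun h => hij (Option.some_injective _ h))]
      change 1 + Matrix.single (some i) (some j) (1 * r * 1) = 1 + Matrix.single (some i) (some j) r
      rw [one_mul, mul_one]
  -- Claim 2
  have c2 : mapSU τ hτ (NonUnitalRingHom.id R) z ∈ PV R V (Option K ⊕ ℕ) v0 (.inl (some o)) := by
    apply hPV
    have h5 := rho_map (V := V) τ hτ z (Finsupp.single o v0)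
    rw [hz, Finsupp.mapDomain_single] at h5
    exact h5
  -- Claim 3
  have c3 : Subgroup.map (Ps d) (PV R V (Option K ⊕ ℕ) v0 (.inl (some o)))
      ≤ Subgroup.map (mt R (Option K)) (PV R V (Option K) v0 (some o)) := by
    rw [PV, MonoidHom.map_closure, Subgroup.closure_le]
    rintro _ ⟨_, ⟨p, q, r, hpq, hq, rfl⟩, rfl⟩
    rw [Ps_xs]
    have key : d.f p = d.f q → d.f p = none := by
      intro hf
      rcases p with (_ | a) | c
      · rfl
      · rcases q with (_ | b) | c'
        · exact hf
        · exfalso
          apply hpq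
          change some a = some b at hf
          rw [hf]
        · exact hf
      · rfl
    by_cases hf : d.f p = d.f q
    · -- both are `none`
      have hp := key hf
      have hq' : d.f q = none := hf ▸ hp
      have hAA : d.A' q * d.A p = 0 := d.h0 q p hf.symm (Ne.symm hpq)
      have hsq : (d.A p * r * d.A' q) * (d.A p * r * d.A' q) = 0 := by
        calc (d.A p * r * d.A' q) * (d.A p * r * d.A' q)
            = d.A p * r * (d.A' q * d.A p) * (r * d.A' q) := by noncomm_ring
          _ = 0 := by rw [hAA, mul_zero, zero_mul]
      let u : Rˣ :=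
        { val := 1 + d.A p * r * d.A' q
          inv := 1 - d.A p * r * d.A' q
          val_inv := by
            rw [add_mul, mul_sub, mul_sub, one_mul, one_mul, mul_one, hsq]
            abel
          inv_val := by
            rw [sub_mul, mul_add, mul_add, one_mul, one_mul, mul_one, hsq]
            abel }
      obtain ⟨z', hz', hz'u⟩ := hdD u
      refine ⟨z', ?_, ?_⟩
      · have hle : Subgroup.closure {z : SU R (Option K) |
            ∃ (i j : Option K) (r : R), i ≠ j ∧ j ≠ some o ∧ z = xs i j r}
            ≤ PV R V (Option K) v0 (some o) := by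
          refine Subgroup.closure_mono ?_
          rintro _ ⟨i, j, r, hij, hj, rfl⟩
          exact ⟨i, j, r, hij, Or.inl hj, rfl⟩
        exact hle hz'
      · rw [hz'u]
        apply Units.ext
        rw [yy_val d hpq]
        have e1 : mm d p q r = Matrix.single none none (d.A p * r * d.A' q) := by
          unfold mm
          rw [hp, hq']
        rw [e1]
        change Matrix.diagonal (fun i : Option K => if i = none then (u : R) else 1)
          = 1 + Matrix.single none none (d.A p * r * d.A' q)
        ext i j
        rw [Matrix.diagonal_apply, Matrix.add_apply, Matrix.one_apply, Matrix.single_apply]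
        by_cases hij : i = j
        · subst hij
          cases i with
          | none =>
            simp only [if_true, and_self]
            rfl
          | some a =>
            simp
        · rw [if_neg hij, if_neg hij, if_neg, add_zero]
          rintro ⟨rfl, rfl⟩
          exact hij rfl
    · -- different indices
      refine ⟨xs (d.f p) (d.f q) (d.A p * r * d.A' q), ?_, ?_⟩
      · refine Subgroup.subset_closure ⟨_, _, _, hf, ?_, rfl⟩
        rcases hq with hq | hq
        · left
          intro h
          apply hq
          rcases q with (_ | b) | c'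
          · have h' : (none : Option K) = some o := h
            exact absurd h'.symm (Option.some_ne_none o)
          · change some b = some o at h
            rw [h]
          · have h' : (none : Option K) = some o := h
            exact absurd h'.symm (Option.some_ne_none o)
        · rcases q with (_ | b) | c'
          · left
            intro h
            have h' : (none : Option K) = some o := h
            exact absurd h'.symm (Option.some_ne_none o)
          · right
            change (d.A p * r * 1) • v0 = 0
            rw [mul_one, mul_smul, hq, smul_zero]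
          · left
            intro h
            have h' : (none : Option K) = some o := h
            exact absurd h'.symm (Option.some_ne_none o)
      · rw [mt_xs]
        apply Units.ext
        rw [yy_val d hpq, tv_val hf]
        rfl
  obtain ⟨z', hz', hz'e⟩ := c3 ⟨_, c2, rfl⟩
  refine ⟨z', hz', ?_⟩
  rw [hz'e]
  exact congrFun (congrArg DFunLike.coe c1) z

end Pool.Agent.H318.BR.T_MRG
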