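import Pool.Agent.H318.BR.Stm

/-!
# Project BR, task OLG: oligomorphic actions on groups of exponent two (helper956, for helper318)
-/

set_option autoImplicit false

namespace Pool.Agent.H318.BR.T_OLG

open Pool.Agent.H318.BR

/-- additive actions and sums -/
theorem map_sum' {G X ι : Type} [Group G] [AddCommGroup X] (ρ : G →* Equiv.Perm X)
    (hadd : ∀ g x y, ρ g (x + y) = ρ g x + ρ g y) (g : G) (s : Finset ι) (x : ι → X) :
    ρ g (∑ i ∈ s, x i) = ∑ i ∈ s, ρ g (x i) :=
  map_sum (AddMonoidHom.mk' (ρ g) (hadd g)) x s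

/-- maximal independent subfamilies -/
theorem max_ind {ι X : Type} [DecidableEq ι] [AddCommGroup X] (x : ι → X) (U : Finset ι) :
    ∃ S ⊆ U, (∀ s ⊆ S, s.Nonempty → ∑ i ∈ s, x i ≠ 0) ∧
      ∀ j ∈ U, j ∉ S → ∃ s ⊆ S, ∑ i ∈ insert j s, x i = 0 := by
  classical
  obtain ⟨S, hS, hmax⟩ := Finset.exists_max_image
    (U.powerset.filter fun S => ∀ s ⊆ S, s.Nonempty → ∑ i ∈ s, x i ≠ 0) Finset.card
    ⟨∅, by
      rw [Finset.mem_filter, Finset.mem_powerset]
      refine ⟨Finset.empty_subset _, fun s hs hn => ?_⟩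
      exact absurd hs (by
        intro h
        rw [Finset.subset_empty] at h
        rw [h] at hn
        exact Finset.not_nonempty_empty hn)⟩
  rw [Finset.mem_filter, Finset.mem_powerset] at hS
  refine ⟨S, hS.1, hS.2, fun j hjU hjS => ?_⟩
  by_contra hc
  push Not at hc
  have h1 : insert j S ∈ U.powerset.filter
      fun S => ∀ s ⊆ S, s.Nonempty → ∑ i ∈ s, x i ≠ 0 := by
    rw [Finset.mem_filter, Finset.mem_powerset]
    refine ⟨Finset.insert_subset hjU hS.1, fun s hs hn => ?_⟩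
    by_cases hj : j ∈ s
    · have h2 := hc (s.erase j) (by
        intro i hi
        rw [Finset.mem_erase] at hi
        have := hs hi.2
        rw [Finset.mem_insert] at this
        exact this.resolve_left hi.1)
      rwa [Finset.insert_erase hj] at h2
    · refine hS.2 s ?_ hn
      intro i hi
      have := hs hi
      rw [Finset.mem_insert] at this
      refine this.resolve_left ?_
      rintro rfl
      exact hj hi
  have h3 := hmax _ h1
  rw [Finset.card_insert_of_notMem hjS] at h3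
  omega

theorem eq_of_insert {ι X : Type} [DecidableEq ι] [AddCommGroup X] (h2 : ∀ x : X, x + x = 0)
    (x : ι → X) {S s : Finset ι} {j : ι} (hj : j ∉ S) (hs : s ⊆ S)
    (h : ∑ i ∈ insert j s, x i = 0) : x j = ∑ i ∈ s, x i := by
  rw [Finset.sum_insert (fun h => hj (hs h))] at h
  exact add_right_cancel (h.trans (h2 _).symm)

/-- the enumeration of an independent subfamily -/
theorem ind_enum {ι X : Type} [AddCommGroup X] (x : ι → X) (S : Finset ι)
    (hS : ∀ s ⊆ S, s.Nonempty → ∑ i ∈ s, x i ≠ 0) :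
    Ind (fun i : Fin S.card => x (S.equivFin.symm i)) := by
  intro s hs
  set emb : Fin S.card ↪ ι := S.equivFin.symm.toEmbedding.trans (Function.Embedding.subtype _)
    with hemb
  have h1 : ∑ i ∈ s, x (S.equivFin.symm i) = ∑ i ∈ s.map emb, x i := by
    rw [Finset.sum_map]
    rfl
  rw [h1]
  refine hS _ ?_ (hs.map)
  intro i hi
  rw [Finset.mem_map] at hi
  obtain ⟨a, -, rfl⟩ := hi
  exact (S.equivFin.symm a).2

theorem same_orbit {G X : Type} [Group G] [AddCommGroup X] (ρ : G →* Equiv.Perm X)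
    (h2 : ∀ x : X, x + x = 0) (hadd : ∀ g x y, ρ g (x + y) = ρ g x + ρ g y)
    (htr : ∀ (k : ℕ) (w w' : Fin k → X), Ind w → Ind w' → ∃ g, ∀ i, ρ g (w i) = w' i)
    (k : ℕ) (x y : Fin k → X)
    (hxy : ∀ s : Finset (Fin k), ∑ i ∈ s, x i = 0 ↔ ∑ i ∈ s, y i = 0) :
    ∃ g, ∀ i, ρ g (x i) = y i := by
  obtain ⟨S, -, hS, hsp⟩ := max_ind x Finset.univ
  have hS' : ∀ s ⊆ S, s.Nonempty → ∑ i ∈ s, y i ≠ 0 := fun s hs hn h => hS s hs hn ((hxy s).2 h)
  obtain ⟨g, hg⟩ := htr _ _ _ (ind_enum x S hS) (ind_enum y S hS')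
  have hgS : ∀ i ∈ S, ρ g (x i) = y i := by
    intro i hi
    have := hg (S.equivFin ⟨i, hi⟩)
    rwa [Equiv.symm_apply_apply] at this
  refine ⟨g, fun j => ?_⟩
  by_cases hj : j ∈ S
  · exact hgS j hj
  · obtain ⟨s, hs, h⟩ := hsp j (Finset.mem_univ _) hj
    rw [eq_of_insert h2 x hj hs h, eq_of_insert h2 y hj hs ((hxy _).1 h),
      map_sum' ρ hadd]
    exact Finset.sum_congr rfl fun i hi => hgS i (hs hi)

theorem fin_orbits {G X : Type} [Group G] [AddCommGroup X] (ρ : G →* Equiv.Perm X)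
    (h2 : ∀ x : X, x + x = 0) (hadd : ∀ g x y, ρ g (x + y) = ρ g x + ρ g y)
    (htr : ∀ (k : ℕ) (w w' : Fin k → X), Ind w → Ind w' → ∃ g, ∀ i, ρ g (w i) = w' i)
    (k : ℕ) : (Set.range (fun x : Fin k → X =>
      {y : Fin k → X | ∃ g : G, y = fun i => ρ g (x i)})).Finite := by
  set F : (Fin k → X) → Set (Fin k → X) := fun x => {y | ∃ g : G, y = fun i => ρ g (x i)} with hF
  set rel : (Fin k → X) → Set (Finset (Fin k)) := fun x => {s | ∑ i ∈ s, x i = 0} with hrel
  have hfac : Function.FactorsThrough F rel := by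
    intro x y hxy
    have h1 : ∀ s : Finset (Fin k), ∑ i ∈ s, x i = 0 ↔ ∑ i ∈ s, y i = 0 := by
      intro s
      have := congrArg (fun A : Set (Finset (Fin k)) => s ∈ A) hxy
      simpa [hrel] using this
    obtain ⟨g, hg⟩ := same_orbit ρ h2 hadd htr k x y h1
    obtain ⟨g', hg'⟩ := same_orbit ρ h2 hadd htr k y x fun s => (h1 s).symm
    ext z
    constructor
    · rintro ⟨a, rfl⟩
      refine ⟨a * g', funext fun i => ?_⟩
      rw [map_mul, Equiv.Perm.mul_apply, hg']
    · rintro ⟨a, rfl⟩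
      refine ⟨a * g, funext fun i => ?_⟩
      rw [map_mul, Equiv.Perm.mul_apply, hg]
  refine (Set.finite_range (Function.extend rel F fun _ => ∅)).subset ?_
  rintro _ ⟨x, rfl⟩
  exact ⟨rel x, hfac.extend_apply _ x⟩

theorem stab_fg {G X : Type} [Group G] [AddCommGroup X] (ρ : G →* Equiv.Perm X)
    (h2 : ∀ x : X, x + x = 0) (hadd : ∀ g x y, ρ g (x + y) = ρ g x + ρ g y) (hG : Group.FG G)
    (hst : ∀ (k : ℕ) (w : Fin (k + 1) → X), Ind w →
      ((⨅ i, MulAction.stabilizer (Equiv.Perm X) (w i)).comap ρ).FG) (F : Finset X) :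
    ((⨅ a ∈ F, MulAction.stabilizer (Equiv.Perm X) a).comap ρ).FG := by
  classical
  obtain ⟨S, hSF, hS, hsp⟩ := max_ind (id : X → X) F
  have key : ∀ g : G, (∀ a ∈ S, ρ g a = a) → ∀ a ∈ F, ρ g a = a := by
    intro g hg a ha
    by_cases haS : a ∈ S
    · exact hg a haS
    · obtain ⟨s, hs, h⟩ := hsp a ha haS
      have h1 := eq_of_insert h2 (id : X → X) haS hs h
      simp only [id] at h1
      rw [h1, map_sum' ρ hadd]
      exact Finset.sum_congr rfl fun i hi => hg i (hs hi)
  have hmemF : ∀ g : G, g ∈ (⨅ a ∈ F, MulAction.stabilizer (Equiv.Perm X) a).comap ρ ↔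
      ∀ a ∈ F, ρ g a = a := by
    intro g
    simp only [Subgroup.mem_comap, Subgroup.mem_iInf, MulAction.mem_stabilizer_iff,
      Equiv.Perm.smul_def]
  rcases Nat.eq_zero_or_pos S.card with h0 | h0
  · have h1 : (⨅ a ∈ F, MulAction.stabilizer (Equiv.Perm X) a).comap ρ = ⊤ := by
      rw [eq_top_iff]
      intro g _
      rw [hmemF]
      refine key g fun a ha => ?_
      rw [Finset.card_eq_zero] at h0
      rw [h0] at ha
      exact absurd ha (Finset.notMem_empty a)
    rw [h1]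
    exact (Group.fg_def).1 hG
  · obtain ⟨m, hm⟩ : ∃ m, S.card = m + 1 := ⟨S.card - 1, by omega⟩
    have hI := ind_enum (id : X → X) S hS
    have h3 : ∀ n : ℕ, n = m + 1 → ∀ w : Fin n → X, Ind w →
        ((⨅ i, MulAction.stabilizer (Equiv.Perm X) (w i)).comap ρ).FG := by
      rintro n rfl w hw
      exact hst m w hw
    have h4 := h3 _ hm _ hI
    have h5 : (⨅ a ∈ F, MulAction.stabilizer (Equiv.Perm X) a).comap ρ =
        (⨅ i : Fin S.card, MulAction.stabilizer (Equiv.Perm X)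
          ((id : X → X) (S.equivFin.symm i))).comap ρ := by
      ext g
      rw [hmemF]
      simp only [Subgroup.mem_comap, Subgroup.mem_iInf, MulAction.mem_stabilizer_iff,
        Equiv.Perm.smul_def, id]
      constructor
      · intro h i
        exact h _ (hSF (S.equivFin.symm i).2)
      · intro h
        refine key g fun a ha => ?_
        have := h (S.equivFin ⟨a, ha⟩)
        rwa [Equiv.symm_apply_apply] at this
    rw [h5]
    exact h4

theorem t : Pool.Agent.H318.BR.S_OLG := by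
  intro G X _ _ ρ h2 hadd hG htr hst
  exact ⟨fun k => fin_orbits ρ h2 hadd htr k, fun F => stab_fg ρ h2 hadd hG hst F⟩

end Pool.Agent.H318.BR.T_OLG
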