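import Pool.Agent.H318.BR.Stm

set_option autoImplicit false

namespace Pool.Agent.H318.BR.T_RED

open Y208.BH
open Pool.Agent.H318.BQ Pool.Agent.H318.BR

section
variable {R I : Type} [Ring R] [Fintype I] [DecidableEq I]

theorem left_apply {i j : I} (h : i ≠ j) (r : R) (g : (Matrix I I R)ˣ) (a b : I) :
    (tv i j r * g).val a b = if a = i then g.val a b + r * g.val j b else g.val a b := by
  rw [Units.val_mul, tv_val h, add_mul, one_mul, Matrix.add_apply]
  by_cases ha : a = i
  · subst ha
    rw [if_pos rfl, Matrix.single_mul_apply_same]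
  · rw [if_neg ha, Matrix.single_mul_apply_of_ne _ _ _ _ _ ha, add_zero]

theorem right_apply {i j : I} (h : i ≠ j) (r : R) (g : (Matrix I I R)ˣ) (a b : I) :
    (g * tv i j r).val a b = if b = j then g.val a b + g.val a i * r else g.val a b := by
  rw [Units.val_mul, tv_val h, mul_add, mul_one, Matrix.add_apply]
  by_cases hb : b = j
  · subst hb
    rw [if_pos rfl, Matrix.mul_single_apply_same]
  · rw [if_neg hb, Matrix.mul_single_apply_of_ne _ _ _ _ _ hb, add_zero]

end

section
variable {R V K : Type} [Ring R] [AddCommGroup V] [Module R V] [Fintype K] [DecidableEq K]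

/-- `h` is obtained from `g` by allowed operations, and satisfies the column condition -/
def ST (v0 : V) (o : K) (g h : (Matrix (Option K) (Option K) R)ˣ) : Prop :=
  (∃ p ∈ PV R V (Option K) v0 (some o), ∃ p' ∈ PV R V (Option K) v0 (some o),
    h = mt R (Option K) p * g * mt R (Option K) p') ∧
  ∀ i, h.val i (some o) • v0 = if i = some o then v0 else 0

theorem ST.left {v0 : V} {o : K} {g h : (Matrix (Option K) (Option K) R)ˣ} (hs : ST v0 o g h)
    {i j : Option K} (hij : i ≠ j) {r : R} (hj : j ≠ some o ∨ r • v0 = 0) :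
    ST v0 o g (tv i j r * h) := by
  obtain ⟨⟨p, hp, p', hp', e⟩, hc⟩ := hs
  refine ⟨⟨xs i j r * p, Subgroup.mul_mem _ (Subgroup.subset_closure ⟨i, j, r, hij, hj, rfl⟩) hp,
    p', hp', ?_⟩, fun a => ?_⟩
  · rw [e, map_mul, mt_xs]
    simp only [mul_assoc]
  · rw [left_apply hij]
    by_cases ha : a = i
    · rw [if_pos ha, add_smul, mul_smul, hc a, hc j]
      by_cases hjo : j = some o
      · rw [if_pos hjo]
        rcases hj with hj | hj
        · exact absurd hjo hj
        · rw [hj, add_zero]
      · rw [if_neg hjo, smul_zero, add_zero]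
    · rw [if_neg ha, hc a]

theorem ST.right {v0 : V} {o : K} {g h : (Matrix (Option K) (Option K) R)ˣ} (hs : ST v0 o g h)
    {i j : Option K} (hij : i ≠ j) {r : R} (hj : j ≠ some o ∨ r • v0 = 0) :
    ST v0 o g (h * tv i j r) := by
  obtain ⟨⟨p, hp, p', hp', e⟩, hc⟩ := hs
  refine ⟨⟨p, hp, p' * xs i j r,
    Subgroup.mul_mem _ hp' (Subgroup.subset_closure ⟨i, j, r, hij, hj, rfl⟩), ?_⟩, fun a => ?_⟩
  · rw [e, map_mul, mt_xs]
    simp only [mul_assoc]
  · rw [right_apply hij]
    by_cases hb : some o = j
    · rw [if_pos hb, add_smul, mul_smul, hc a]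
      rcases hj with hj | hj
      · exact absurd hb.symm hj
      · rw [hj, smul_zero, add_zero]
    · rw [if_neg hb, hc a]

/-- clear the column -/
theorem clearCol {v0 : V} {o : K} {g h : (Matrix (Option K) (Option K) R)ˣ} (hs : ST v0 o g h)
    (h1 : h.val none none = 1) (T : Finset (Option K)) :
    ∃ h', ST v0 o g h' ∧ h'.val none none = 1 ∧ ∀ i ∈ T, i ≠ none → h'.val i none = 0 := by
  induction T using Finset.induction_on with
  | empty => exact ⟨h, hs, h1, by simp⟩
  | insert t T ht ih =>
    obtain ⟨h', hs', o1, z⟩ := ih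
    by_cases htn : t = none
    · refine ⟨h', hs', o1, fun i hi hin => ?_⟩
      rcases Finset.mem_insert.1 hi with rfl | hi
      · exact absurd htn hin
      · exact z i hi hin
    · refine ⟨tv t none (-(h'.val t none)) * h', hs'.left htn (Or.inl (by simp)), ?_, ?_⟩
      · rw [left_apply htn, if_neg (Ne.symm htn), o1]
      · intro i hi hin
        rw [left_apply htn]
        by_cases hit : i = t
        · subst hit
          rw [if_pos rfl, o1, mul_one, add_neg_cancel]
        · rw [if_neg hit]
          rcases Finset.mem_insert.1 hi with hi | hi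
          · exact absurd hi hit
          · exact z i hi hin

/-- clear the row -/
theorem clearRow {v0 : V} {o : K} {g h : (Matrix (Option K) (Option K) R)ˣ} (hs : ST v0 o g h)
    (h1 : h.val none none = 1) (hcol : ∀ i, i ≠ none → h.val i none = 0)
    (T : Finset (Option K)) :
    ∃ h', ST v0 o g h' ∧ h'.val none none = 1 ∧ (∀ i, i ≠ none → h'.val i none = 0) ∧
      ∀ i ∈ T, i ≠ none → h'.val none i = 0 := by
  induction T using Finset.induction_on with
  | empty => exact ⟨h, hs, h1, hcol, by simp⟩
  | insert t T ht ih =>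
    obtain ⟨h', hs', o1, c, z⟩ := ih
    by_cases htn : t = none
    · refine ⟨h', hs', o1, c, fun i hi hin => ?_⟩
      rcases Finset.mem_insert.1 hi with rfl | hi
      · exact absurd htn hin
      · exact z i hi hin
    · have hal : t ≠ some o ∨ (-(h'.val none t)) • v0 = 0 := by
        by_cases hto : t = some o
        · right
          rw [neg_smul, hto, hs'.2 none, if_neg (by simp), neg_zero]
        · exact Or.inl hto
      refine ⟨h' * tv none t (-(h'.val none t)), hs'.right (Ne.symm htn) hal, ?_, ?_, ?_⟩
      · rw [right_apply (Ne.symm htn), if_neg (Ne.symm htn), o1]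
      · intro i hin
        rw [right_apply (Ne.symm htn), if_neg (Ne.symm htn), c i hin]
      · intro i hi hin
        rw [right_apply (Ne.symm htn)]
        by_cases hit : i = t
        · subst hit
          rw [if_pos rfl, o1, one_mul, add_neg_cancel]
        · rw [if_neg hit]
          rcases Finset.mem_insert.1 hi with hi | hi
          · exact absurd hi hit
          · exact z i hi hin

/-- a nonzero entry in the row `some k`, not in the column `none` -/
theorem exists_entry {v0 : V} {o : K} {g h : (Matrix (Option K) (Option K) R)ˣ} (h10 : (1 : R) ≠ 0)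
    (hs : ST v0 o g h) {k : K} (hk : k ≠ o) :
    ∃ h', ST v0 o g h' ∧ ∃ i, i ≠ none ∧ h'.val (some k) i ≠ 0 := by
  by_cases hex : ∃ i, i ≠ none ∧ h.val (some k) i ≠ 0
  · exact ⟨h, hs, hex⟩
  · push Not at hex
    have hne : h.val (some k) none ≠ 0 := by
      intro h0
      have h2 : (h.val * h.inv) (some k) (some k) = 1 := by
        rw [h.val_inv, Matrix.one_apply_eq]
      rw [Matrix.mul_apply] at h2
      apply h10
      rw [← h2]
      refine Finset.sum_eq_zero fun j _ => ?_
      by_cases hj : j = none
      · rw [hj, h0, zero_mul]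
      · rw [hex j hj, zero_mul]
    have hnk : (none : Option K) ≠ some k := by simp
    have hko : (some k : Option K) ≠ some o := fun e => hk (Option.some.inj e)
    refine ⟨h * tv none (some k) 1, hs.right hnk (Or.inl hko), some k, by simp, ?_⟩
    rw [right_apply hnk, if_pos rfl, hex (some k) (by simp), zero_add, mul_one]
    exact hne

/-- the entry `(none, none)` is made `1` -/
theorem exists_one {v0 : V} {o : K} {g h : (Matrix (Option K) (Option K) R)ˣ} (hPI : PI R)
    (hs : ST v0 o g h) {k : K} (hk : k ≠ o) {i : Option K} (hi : i ≠ none)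
    (hne : h.val (some k) i ≠ 0) :
    ∃ h', ST v0 o g h' ∧ h'.val none none = 1 := by
  obtain ⟨x, y, hxy⟩ := hPI _ hne
  have hnk : (none : Option K) ≠ some k := by simp
  have hko : (some k : Option K) ≠ some o := fun e => hk (Option.some.inj e)
  obtain ⟨h2, e2⟩ : ∃ h2, h2 = h * tv i none (y * (1 - x * h.val (some k) none)) := ⟨_, rfl⟩
  have hs2 : ST v0 o g h2 := by
    rw [e2]
    exact hs.right hi (Or.inl (by simp))
  have hx : x * h2.val (some k) none = 1 := by
    rw [e2, right_apply hi, if_pos rfl, mul_add]
    have : x * (h.val (some k) i * (y * (1 - x * h.val (some k) none))) =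
        (x * h.val (some k) i * y) * (1 - x * h.val (some k) none) := by
      simp only [mul_assoc]
    rw [this, hxy, one_mul, add_sub_cancel]
  refine ⟨tv none (some k) ((1 - h2.val none none) * x) * h2, hs2.left hnk (Or.inl hko), ?_⟩
  rw [left_apply hnk, if_pos rfl, mul_assoc, hx, mul_one, add_sub_cancel]

theorem t : Pool.Agent.H318.BR.S_RED := by
  intro R V K _ _ _ _ _ v0 o hPI h10 hcard g hg
  obtain ⟨k, hk⟩ : ∃ k : K, k ≠ o := by
    have h2 : 1 < Fintype.card K := by omega
    exact Fintype.exists_ne_of_one_lt_card h2 o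
  have hs0 : ST v0 o g g := ⟨⟨1, Subgroup.one_mem _, 1, Subgroup.one_mem _, by simp⟩, hg⟩
  obtain ⟨h1, hs1, i, hi, hne⟩ := exists_entry h10 hs0 hk
  obtain ⟨h2, hs2, o2⟩ := exists_one hPI hs1 hk hi hne
  obtain ⟨h3, hs3, o3, c3⟩ := clearCol hs2 o2 Finset.univ
  obtain ⟨h4, hs4, o4, c4, r4⟩ := clearRow hs3 o3 (fun i hi => c3 i (Finset.mem_univ i) hi) Finset.univ
  have hcN : ∀ i, h4.val i none = (1 : Matrix (Option K) (Option K) R) i none := by
    intro i
    by_cases hi : i = none
    · rw [hi, o4, Matrix.one_apply_eq]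
    · rw [c4 i hi, Matrix.one_apply_ne hi]
  have hrN : ∀ i, h4.val none i = (1 : Matrix (Option K) (Option K) R) none i := by
    intro i
    by_cases hi : i = none
    · rw [hi, o4, Matrix.one_apply_eq]
    · rw [r4 i (Finset.mem_univ i) hi, Matrix.one_apply_ne (Ne.symm hi)]
  -- the inverse
  have hcI : ∀ i, h4.inv i none = (1 : Matrix (Option K) (Option K) R) i none := by
    intro i
    have e1 : (h4.inv * h4.val) i none = (1 : Matrix (Option K) (Option K) R) i none := by
      rw [h4.inv_val]
    rw [← e1, Matrix.mul_apply, Finset.sum_eq_single none]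
    · rw [o4, mul_one]
    · intro j _ hj
      rw [c4 j hj, mul_zero]
    · intro h
      exact absurd (Finset.mem_univ _) h
  have hrI : ∀ i, h4.inv none i = (1 : Matrix (Option K) (Option K) R) none i := by
    intro i
    have e1 : (h4.val * h4.inv) none i = (1 : Matrix (Option K) (Option K) R) none i := by
      rw [h4.val_inv]
    rw [← e1, Matrix.mul_apply, Finset.sum_eq_single none]
    · rw [o4, one_mul]
    · intro j _ hj
      rw [r4 j (Finset.mem_univ j) hj, zero_mul]
    · intro h
      exact absurd (Finset.mem_univ _) h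
  have hblk : ∀ A B : Matrix (Option K) (Option K) R, A * B = 1 →
      (∀ i, i ≠ none → A i none = 0) →
      (Matrix.of fun i j : K => A (some i) (some j)) * (Matrix.of fun i j : K => B (some i) (some j)) = 1 := by
    intro A B hAB hA
    ext i j
    have e1 : (A * B) (some i) (some j) = (1 : Matrix (Option K) (Option K) R) (some i) (some j) := by
      rw [hAB]
    rw [Matrix.mul_apply, Fintype.sum_option, hA (some i) (by simp), zero_mul, zero_add] at e1
    rw [Matrix.mul_apply]
    simp only [Matrix.of_apply]
    rw [e1]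
    by_cases hij : i = j
    · rw [hij, Matrix.one_apply_eq, Matrix.one_apply_eq]
    · rw [Matrix.one_apply_ne hij, Matrix.one_apply_ne fun e => hij (Option.some.inj e)]
  obtain ⟨⟨p, hp, p', hp', e4⟩, hc4⟩ := hs4
  refine ⟨p, hp, p', hp', ⟨Matrix.of fun i j : K => h4.val (some i) (some j),
    Matrix.of fun i j : K => h4.inv (some i) (some j), hblk _ _ h4.val_inv c4,
    hblk _ _ h4.inv_val fun i hi => ?_⟩, fun i => ?_, fun i j => ?_, fun i => ?_, fun j => ?_, ?_⟩
  · rw [hcI i, Matrix.one_apply_ne hi]
  · change h4.val (some i) (some o) • v0 = _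
    rw [hc4 (some i)]
    by_cases hio : i = o
    · rw [if_pos (congrArg some hio), if_pos hio]
    · rw [if_neg hio, if_neg fun e => hio (Option.some.inj e)]
  · rw [← e4]
    rfl
  · rw [← e4]
    exact c4 (some i) (by simp)
  · rw [← e4]
    exact r4 (some j) (Finset.mem_univ _) (by simp)
  · rw [← e4]
    exact o4

end

end Pool.Agent.H318.BR.T_RED
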