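import Pool.Agent.H318.BR.Stm
import Pool.Graph.R_seed8.Y455.BH.Cent
import Pool.Graph.R_seed8.Y497.BH.Nuh
import Pool.Graph.R_seed8.Y208.BH.Asm1

/-! Task RHF: the action on vectors over a faithful module is faithful. -/

set_option autoImplicit false

namespace Pool.Agent.H318.BR.T_RHF

open Y208.BH Pool.Agent.Y497.BH

theorem t : Pool.Agent.H318.BR.S_RHF := by
  intro R V I _ _ _ _ hsw hf z hz
  refine t_K2 Pool.Agent.Y455.BH.cent Pool.Agent.Y497.BH.t_NUH Pool.Agent.Y455.BH.t_conj
    Pool.Agent.Y455.BH.sumu R I hsw z ?_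
  classical
  let θ : V → (I →₀ R) → (I →₀ V) := fun b w => w.mapRange (fun r => r • b) (by simp)
  have hθ : ∀ b w i, θ b w i = w i • b := fun b w i => by
    simp only [θ, Finsupp.mapRange_apply]
  have key : ∀ b w, rho R V I z (θ b w) = θ b (rho R R I z w) := by
    intro b
    refine su_ind (fun z => ∀ w, rho R V I z (θ b w) = θ b (rho R R I z w)) ?_ ?_ ?_ ?_ z
    · intro w; simp
    · intro x y hx hy w
      rw [map_mul, map_mul, Equiv.Perm.mul_apply, Equiv.Perm.mul_apply, hy, hx]
    · intro x hx w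
      rw [map_inv, map_inv, Equiv.Perm.inv_eq_iff_eq, hx, p_ai]
    · intro i j r h w
      rw [rho_xs, rho_xs, el_apply h, el_apply h]
      ext k
      rw [Finsupp.add_apply, hθ, hθ, hθ, Finsupp.add_apply, smul_eq_mul]
      by_cases hk : i = k
      · subst hk
        rw [Finsupp.single_eq_same, Finsupp.single_eq_same, add_smul, mul_smul]
      · rw [Finsupp.single_eq_of_ne' hk, Finsupp.single_eq_of_ne' hk, add_zero, add_zero]
  refine Equiv.ext fun w => Finsupp.ext fun i => ?_
  rw [Equiv.Perm.one_apply]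
  refine sub_eq_zero.1 (hf _ fun v => ?_)
  have h1 := key v w
  rw [hz, Equiv.Perm.one_apply] at h1
  have h2 := DFunLike.congr_fun h1 i
  rw [hθ, hθ] at h2
  rw [sub_smul, h2, sub_self]

end Pool.Agent.H318.BR.T_RHF
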