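import Pool.Agent.H318.BR.Stm
import Pool.Graph.R_seed8.Y469.BH.Stab
import Pool.Graph.R_seed8.Y891.BH.Rows

/-!
# TASK STI: the stabilizer of a vector, infinitely many indices (helper62)
-/

set_option autoImplicit false

open Finsupp

namespace Pool.Agent.H318.BR.T_STI

open Y208.BH Pool.Agent.H318.BQ Pool.Agent.H318.BR Pool.Agent.Y469.BH

/-- as the library theorem, with `2 = 0` only -/
theorem stab {R V I : Type} [Ring R] [AddCommGroup V] [Module R V] [Infinite I] (v0 : V)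
    (h2R : (2 : R) = 0) (o : I) {g : Equiv.Perm (I →₀ V)} (hg : g ∈ EG R V I)
    (hgo : g (Finsupp.single o v0) = Finsupp.single o v0) : g ∈ PS R V I v0 o := by
  classical
  have hTV : S_TV := Pool.Agent.Y891.BH.t_TV
  have hR : ∀ a : R, a + a = 0 := fun a => by
    rw [← two_mul, h2R, zero_mul]
  obtain ⟨η, ρ, h1, h2, F, hF⟩ := Cl_all (v0 := v0) (o := o) hR hg
  obtain ⟨m, hm⟩ := Infinite.exists_notMem_finset F
  obtain ⟨h3, h4, h5, h6⟩ := hF m hm
  rw [hgo] at h1 h2
  have h : (single o 1 : I →₀ R) m = 0 := by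
    rw [single_apply, if_neg (Ne.symm h5)]
  have h7 := start (v0 := v0) hR h5 h
  have h8 := AB hR hTV v0 m (single o 1) η (single o 1) ρ (single o v0) h h3 h h4
    (by rw [single_pr, single_eq_same, one_smul]) h1 (by rw [single_sm, one_smul]) h2
  have h9 := Subgroup.mul_mem _ (Subgroup.inv_mem _ h7) (Subgroup.mul_mem _ h8 h6)
  have e1 : ((EP m (single o 1) h * TP m (single o 1) h : Equiv.Perm (I →₀ V))⁻¹ * sw R m o)⁻¹ *
      ((EP m (single o 1) h * TP m (single o 1) h)⁻¹ * (EP m η h3 * TP m ρ h4) *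
        ((EP m η h3 * TP m ρ h4)⁻¹ * g * sw R m o)) = (sw R m o)⁻¹ * g * sw R m o := by
    group
  rw [e1] at h9
  have h10 := sw_conj_mem hR h5 h9
  have e2 : sw R m o * ((sw R m o)⁻¹ * g * sw R m o) * (sw R m o)⁻¹ = g := by group
  rwa [e2] at h10

theorem rho_mem (R V I : Type) [Ring R] [AddCommGroup V] [Module R V] (z : SU R I) :
    rho R V I z ∈ EG R V I := by
  have h1 : (⊤ : Subgroup (SU R I)) ≤ (EG R V I).comap (rho R V I) := by
    rw [← closure_xs R I, Subgroup.closure_le]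
    rintro _ ⟨i, j, r, hij, rfl⟩
    show rho R V I (xs i j r) ∈ EG R V I
    rw [rho_xs]
    exact Subgroup.subset_closure ⟨i, j, r, hij, rfl⟩
  exact h1 (Subgroup.mem_top z)

theorem PS_le {R V I : Type} [Ring R] [AddCommGroup V] [Module R V] (v0 : V) (o : I) :
    PS R V I v0 o ≤ (PV R V I v0 o).map (rho R V I) := by
  unfold PS
  rw [Subgroup.closure_le]
  rintro _ ⟨p, q, r, hpq, h, rfl⟩
  refine ⟨xs p q r, Subgroup.subset_closure ⟨p, q, r, hpq, h, rfl⟩, ?_⟩
  exact rho_xs p q r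

theorem t : Pool.Agent.H318.BR.S_STI := by
  intro R V I _ _ _ _ v0 o h2R hinj z hz
  have h1 := stab v0 h2R o (rho_mem R V I z) hz
  obtain ⟨z', hz', h2⟩ := PS_le v0 o h1
  have h3 : z * z'⁻¹ = 1 := by
    apply hinj
    rw [map_mul, map_inv, h2, mul_inv_cancel]
  rw [mul_inv_eq_one] at h3
  rw [h3]
  exact hz'

end Pool.Agent.H318.BR.T_STI
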