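import Pool.Agent.H318.BR.Stm

/-!
# Task TRK: transitivity on independent tuples
-/

set_option autoImplicit false

namespace Pool.Agent.H318.BR.T_TRK

open Y208.BH Pool.Agent.H318.BQ

theorem ind_of_li {V : Type} [AddCommGroup V] [Module (ZMod 2) V] {k : ℕ} {v : Fin k → V}
    (h : LinearIndependent (ZMod 2) v) : Ind v := by
  intro s hs h0
  obtain ⟨i, hi⟩ := hs
  have h1 := (linearIndependent_iff'.1 h) s (fun _ => 1) (by simpa using h0) i hi
  exact one_ne_zero h1

/-- the merging of two coordinates -/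
theorem key (hden : S_DEN) {R V : Type} [Ring R] [AddCommGroup V] [Module R V] {v0 : V}
    (hg : Good R V v0) (hV : Infinite V) {k : ℕ} (u u' : Fin k → V) :
    ∃ r : R, ∀ s : Finset (Fin k), ∑ i ∈ s, (u' i + r • u i) = 0 →
      ∑ i ∈ s, u' i = 0 ∧ ∑ i ∈ s, u i = 0 := by
  classical
  have h2 : ∀ v : V, 2 • v = 0 := by
    intro v
    have h3 : ((2 : ℕ) : R) • v = 2 • v := Nat.cast_smul_eq_nsmul R 2 v
    rw [← h3, Nat.cast_ofNat, hg.two, zero_smul]
  letI : Module (ZMod 2) V := AddCommGroup.zmodModule h2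
  obtain ⟨U, hU⟩ : ∃ U : Submodule (ZMod 2) V, U = Submodule.span (ZMod 2) (Set.range u) :=
    ⟨_, rfl⟩
  obtain ⟨U', hU'⟩ : ∃ U' : Submodule (ZMod 2) V, U' = Submodule.span (ZMod 2) (Set.range u') :=
    ⟨_, rfl⟩
  haveI hUf : Module.Finite (ZMod 2) U := by
    rw [hU]
    exact Module.Finite.span_of_finite (ZMod 2) (Set.finite_range u)
  haveI hUf' : Module.Finite (ZMod 2) U' := by
    rw [hU']
    exact Module.Finite.span_of_finite (ZMod 2) (Set.finite_range u')
  have hnf : ¬ Module.Finite (ZMod 2) (V ⧸ U') := by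
    intro hf
    haveI : Module.Finite (ZMod 2) V := Module.Finite.of_submodule_quotient U'
    have : Finite V := Module.finite_of_finite (ZMod 2)
    exact not_finite V
  let C := Module.Basis.ofVectorSpace (ZMod 2) (V ⧸ U')
  haveI hinf : Infinite (Module.Basis.ofVectorSpaceIndex (ZMod 2) (V ⧸ U')) := by
    by_contra hcon
    rw [not_infinite_iff_finite] at hcon
    exact hnf (Module.Finite.of_basis C)
  let e := Infinite.natEmbedding (Module.Basis.ofVectorSpaceIndex (ZMod 2) (V ⧸ U'))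
  have hsurj : ∀ n : ℕ, ∃ y : V, U'.mkQ y = C (e n) := fun n => U'.mkQ_surjective _
  choose y hy using hsurj
  let B := Module.finBasis (ZMod 2) U
  have hB : Ind (fun i => (B i : V)) := by
    apply ind_of_li
    exact B.linearIndependent.map' U.subtype (Submodule.ker_subtype U)
  obtain ⟨r, hr⟩ := hden R V v0 hg _ (fun i => (B i : V)) (fun i => y i) hB
  refine ⟨r, fun s hs => ?_⟩
  let f : V →ₗ[ZMod 2] V := AddMonoidHom.toZModLinearMap 2 (DistribMulAction.toAddMonoidHom V r)
  have hf : ∀ v, f v = r • v := fun v => rfl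
  have hker : ∀ x : U, U'.mkQ (f x) = 0 → x = 0 := by
    intro x hx
    let g : U →ₗ[ZMod 2] (V ⧸ U') := U'.mkQ ∘ₗ f ∘ₗ U.subtype
    have hgx : g x = 0 := hx
    have hgB : ∀ i, g (B i) = C (e i) := by
      intro i
      have : g (B i) = U'.mkQ (r • (B i : V)) := rfl
      rw [this, hr i, hy]
    have li : LinearIndependent (ZMod 2) (fun i : Fin (Module.finrank (ZMod 2) U) => C (e i)) :=
      C.linearIndependent.comp (fun i : Fin (Module.finrank (ZMod 2) U) => e i)
        (fun a b hab => Fin.ext (e.injective hab))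
    have h0 : ∑ i, B.repr x i • C (e i) = 0 := by
      rw [← hgx]
      conv_rhs => rw [← B.sum_repr x]
      rw [map_sum]
      refine Finset.sum_congr rfl fun i _ => ?_
      rw [map_smul, hgB]
    have h1 := Fintype.linearIndependent_iff.1 li _ h0
    rw [← B.sum_repr x]
    refine Finset.sum_eq_zero fun i _ => ?_
    rw [h1 i, zero_smul]
  rw [Finset.sum_add_distrib, ← Finset.smul_sum] at hs
  have hmem : ∑ i ∈ s, u i ∈ U := by
    rw [hU]
    exact Submodule.sum_mem _ fun i _ => Submodule.subset_span ⟨i, rfl⟩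
  have hmem' : ∑ i ∈ s, u' i ∈ U' := by
    rw [hU']
    exact Submodule.sum_mem _ fun i _ => Submodule.subset_span ⟨i, rfl⟩
  have h3 := hker ⟨∑ i ∈ s, u i, hmem⟩ (by
    rw [Submodule.mkQ_apply, Submodule.Quotient.mk_eq_zero, hf]
    have : r • ∑ i ∈ s, u i = - ∑ i ∈ s, u' i := by
      rw [eq_neg_iff_add_eq_zero, add_comm]
      exact hs
    show r • ∑ i ∈ s, u i ∈ U'
    rw [this]
    exact U'.neg_mem hmem')
  have h4 : ∑ i ∈ s, u i = 0 := congrArg Subtype.val h3
  refine ⟨?_, h4⟩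
  rwa [h4, smul_zero, add_zero] at hs

section
variable {R V J : Type} [Ring R] [AddCommGroup V] [Module R V] [Fintype J] [DecidableEq J]

theorem rho_mul_xs (z : SU R J) {i j : J} (h : i ≠ j) (r : R) (w : J →₀ V) :
    rho R V J (xs i j r * z) w = rho R V J z w + Finsupp.single i (r • (rho R V J z w) j) := by
  rw [map_mul, Equiv.Perm.mul_apply, rho_xs, el_apply h]

theorem merge (hden : S_DEN) {v0 : V} (hg : Good R V v0) (hV : Infinite V) {k : ℕ}
    (w : Fin k → (J →₀ V)) (i0 : J) (T : Finset J) : i0 ∉ T →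
    ∃ z : SU R J, (∀ i, ∀ j, j ≠ i0 → (rho R V J z (w i)) j = w i j) ∧
      ∀ s : Finset (Fin k), ∑ i ∈ s, (rho R V J z (w i)) i0 = 0 →
        ∑ i ∈ s, (w i) i0 = 0 ∧ ∀ j ∈ T, ∑ i ∈ s, w i j = 0 := by
  induction T using Finset.induction_on with
  | empty =>
    intro _
    refine ⟨1, fun i j _ => ?_, fun s hs => ⟨?_, fun j hj => absurd hj (Finset.notMem_empty j)⟩⟩
    · rw [map_one, Equiv.Perm.one_apply]
    · simpa only [map_one, Equiv.Perm.one_apply] using hs
  | insert j T hj ih =>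
    intro h0
    rw [Finset.mem_insert, not_or] at h0
    obtain ⟨z, hz1, hz2⟩ := ih h0.2
    obtain ⟨r, hr⟩ := key hden hg hV (fun i => (rho R V J z (w i)) j)
      (fun i => (rho R V J z (w i)) i0)
    refine ⟨xs i0 j r * z, fun i j' hj' => ?_, fun s hs => ?_⟩
    · rw [rho_mul_xs z h0.1, Finsupp.add_apply, Finsupp.single_eq_of_ne hj', add_zero, hz1 i j' hj']
    · have e : ∀ i, (rho R V J (xs i0 j r * z) (w i)) i0 =
          (rho R V J z (w i)) i0 + r • (rho R V J z (w i)) j := by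
        intro i
        rw [rho_mul_xs z h0.1, Finsupp.add_apply, Finsupp.single_eq_same]
      rw [Finset.sum_congr rfl (fun i _ => e i)] at hs
      obtain ⟨h1, h2⟩ := hr s hs
      obtain ⟨h3, h4⟩ := hz2 s h1
      refine ⟨h3, fun j' hj' => ?_⟩
      rcases Finset.mem_insert.1 hj' with rfl | hj'
      · rw [← h2]
        exact Finset.sum_congr rfl fun i _ => (hz1 i j' (Ne.symm h0.1)).symm
      · exact h4 j' hj'

theorem clear (hden : S_DEN) {v0 : V} (hg : Good R V v0) {k : ℕ} (w : Fin k → (J →₀ V))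
    (b : Fin k → V) (hb : Ind b) (o : J) (z0 : SU R J)
    (hz0 : ∀ i, (rho R V J z0 (w i)) o = b i) (T : Finset J) : o ∉ T →
    ∃ z : SU R J, (∀ i, (rho R V J z (w i)) o = b i) ∧
      ∀ i, ∀ j ∈ T, (rho R V J z (w i)) j = 0 := by
  induction T using Finset.induction_on with
  | empty =>
    intro _
    exact ⟨z0, hz0, fun i j hj => absurd hj (Finset.notMem_empty j)⟩
  | insert j T hj ih =>
    intro h0
    rw [Finset.mem_insert, not_or] at h0
    obtain ⟨z, hz1, hz2⟩ := ih h0.2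
    obtain ⟨r, hr⟩ := hden R V v0 hg k b (fun i => - (rho R V J z (w i)) j) hb
    refine ⟨xs j o r * z, fun i => ?_, fun i j' hj' => ?_⟩
    · rw [rho_mul_xs z (Ne.symm h0.1), Finsupp.add_apply, Finsupp.single_eq_of_ne h0.1, add_zero,
        hz1 i]
    · rw [rho_mul_xs z (Ne.symm h0.1), Finsupp.add_apply, hz1 i, hr i]
      rcases Finset.mem_insert.1 hj' with rfl | hj'
      · rw [Finsupp.single_eq_same, add_neg_cancel]
      · have hne : j' ≠ j := fun h => hj (h ▸ hj')
        rw [Finsupp.single_eq_of_ne hne, add_zero, hz2 i j' hj']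

end

theorem t (h : Pool.Agent.H318.BR.S_DEN) : Pool.Agent.H318.BR.S_TRK := by
  intro R V J _ _ _ _ _ v0 hg hV hJ k w b o hw hb
  obtain ⟨i0, hi0⟩ : ∃ i0 : J, i0 ≠ o := Fintype.exists_ne_of_one_lt_card (by omega) o
  obtain ⟨z1, -, hz1⟩ := merge h hg hV w i0 (Finset.univ.erase i0) (Finset.notMem_erase _ _)
  have hind : Ind (fun i => (rho R V J z1 (w i)) i0) := by
    intro s hs h0
    obtain ⟨h1, h2⟩ := hz1 s h0
    refine hw s hs ?_
    ext j
    rw [Finsupp.finset_sum_apply, Finsupp.zero_apply]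
    by_cases hj : j = i0
    · rw [hj]
      exact h1
    · exact h2 j (Finset.mem_erase.2 ⟨hj, Finset.mem_univ j⟩)
  obtain ⟨r, hr⟩ := h R V v0 hg k _ (fun i => b i - (rho R V J z1 (w i)) o) hind
  obtain ⟨z, hz, hz'⟩ := clear h hg w b hb o (xs o i0 r * z1) (fun i => by
    rw [rho_mul_xs z1 (Ne.symm hi0), Finsupp.add_apply, Finsupp.single_eq_same, hr i,
      add_sub_cancel]) (Finset.univ.erase o) (Finset.notMem_erase _ _)
  refine ⟨z, fun i => ?_⟩
  ext j
  by_cases hj : j = o
  · rw [hj, hz i, Finsupp.single_eq_same]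
  · rw [hz' i j (Finset.mem_erase.2 ⟨hj, Finset.mem_univ j⟩), Finsupp.single_eq_of_ne hj]

end Pool.Agent.H318.BR.T_TRK
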