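import Pool.Agent.H318.BR.Asm
import Pool.Agent.H318.BR.T_STI
import Pool.Agent.H318.BR.T_RHF
import Pool.Agent.H318.BR.T_BRG
import Pool.Agent.H318.BR.T_BLK
import Pool.Agent.H318.BR.T_HDD
import Pool.Agent.H318.BR.T_MRG
import Pool.Agent.H318.BR.T_RED
import Pool.Agent.H318.BR.T_FGV
import Pool.Agent.H318.BR.T_DEN
import Pool.Agent.H318.BR.T_ANN
import Pool.Agent.H318.BR.T_TRK
import Pool.Agent.H318.BR.T_IDP
import Pool.Agent.H318.BR.T_INV
import Pool.Agent.H318.BR.T_OLG
import Pool.Agent.H318.BR.T_RG2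

/-!
# Project BR: the Boone-Higman conjecture with an oligomorphic action

Every finitely generated group with computable word problem embeds in a finitely presented simple
group which has a faithful oligomorphic action with finitely generated stabilizers of finite sets.
-/

set_option autoImplicit false

open scoped commutatorElement

namespace Pool.Agent.H318.BR

open Y208.BH Pool.Agent.H318.BQ

/-- `H` embeds in a finitely presented simple group -/
def EmbedsSimple (H : Type) [Group H] : Prop :=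
  ∃ (G : Type) (_ : Group G) (φ : H →* G),
    Group.IsFinitelyPresented G ∧ IsSimpleGroup G ∧ Function.Injective φ

/-- `H` embeds in a finitely presented simple group which has a faithful oligomorphic action on an
infinite set with finitely generated pointwise stabilizers of finite sets -/
def EmbedsSimpleOligomorphic (H : Type) [Group H] : Prop :=
  ∃ (G : Type) (_ : Group G) (φ : H →* G) (X : Type) (_ : Infinite X) (ρ : G →* Equiv.Perm X),
    Group.IsFinitelyPresented G ∧ IsSimpleGroup G ∧ Function.Injective φ ∧ Function.Injective ρ ∧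
    (∀ k : ℕ, (Set.range (fun x : Fin k → X =>
      {y : Fin k → X | ∃ g : G, y = fun i => ρ g (x i)})).Finite) ∧
    ∀ F : Finset X, ((⨅ a ∈ F, MulAction.stabilizer (Equiv.Perm X) a).comap ρ).FG

theorem main {n : ℕ} (rels : Set (FreeGroup (Fin n)))
    (hwp : ComputablePred (fun w : List (Fin n × Bool) =>
      PresentedGroup.mk rels (FreeGroup.mk w) = 1)) :
    EmbedsSimpleOligomorphic (PresentedGroup rels) := by
  obtain ⟨R, V, _, _, _, _, v0, hfp, hR, hG, θ, hθ⟩ := T_RG2.t n rels hwp
  have hFP : Group.IsFinitelyPresented (SU R J10) :=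
    fpf R J10 (by rw [Nat.card_eq_fintype_card]; decide) hfp
  have hgf : Group.FG (SU R J10) := by
    obtain ⟨m, f, hf, -⟩ := hFP.out
    exact Group.fg_of_surjective hf
  obtain ⟨φ, hφ⟩ := emb hR
  obtain ⟨h1, h2, h3, h4⟩ := olig T_STI.t T_RHF.t T_BRG.t T_BLK.t T_HDD.t T_MRG.t T_RED.t T_FGV.t
    (T_ANN.t T_DEN.t) (T_TRK.t T_DEN.t) T_IDP.t T_INV.t T_OLG.t R V v0 hfp hR hG hgf
  exact ⟨SU R J10, inferInstance, φ.comp θ, J10 →₀ V, h1, rho R V J10, hFP, su_simple hR,
    hφ.comp hθ, h2, h3, h4⟩

theorem wp_of_simple {n : ℕ} (rels : Set (FreeGroup (Fin n)))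
    (h : EmbedsSimple (PresentedGroup rels)) :
    ComputablePred (fun w : List (Fin n × Bool) =>
      PresentedGroup.mk rels (FreeGroup.mk w) = 1) := by
  obtain ⟨G, _, φ, hfp, hs, hφ⟩ := h
  obtain ⟨m, s, hs', ⟨E⟩⟩ := Group.IsFinitelyPresented.exists_mulEquiv_presentedGroup (G := G)
  obtain ⟨F, rfl⟩ : ∃ F : Finset (FreeGroup (Fin m)), (F : Set (FreeGroup (Fin m))) = s :=
    ⟨hs'.toFinset, hs'.coe_toFinset⟩
  exact converse rels ⟨m, F, (E : G →* _).comp φ, (MulEquiv.isSimpleGroup_congr E).1 hs,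
    E.injective.comp hφ⟩

theorem simple_of_oligomorphic (H : Type) [Group H] (h : EmbedsSimpleOligomorphic H) :
    EmbedsSimple H := by
  obtain ⟨G, _, φ, X, _, ρ, h1, h2, h3, -⟩ := h
  exact ⟨G, inferInstance, φ, h1, h2, h3⟩

end Pool.Agent.H318.BR
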