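import Pool.Agent.H318.BQ.Stm

/-!
# Project BR: exact statements of the tasks

The finitely presented simple group `SU R J` (`J` finite) acts on the vectors `J →₀ V` (library
`rho R V J`), with finitely many orbits on tuples and finitely generated stabilizers of tuples.
-/

set_option autoImplicit false

open scoped commutatorElement TensorProduct

namespace Pool.Agent.H318.BR

open Y208.BH Pool.Agent.H318.BQ

/-- elementary transformations fixing the vector `v0 e_o` -/
def PV (R V J : Type) [Ring R] [AddCommGroup V] [Module R V] (v0 : V) (o : J) :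
    Subgroup (SU R J) :=
  Subgroup.closure {z | ∃ (p q : J) (r : R), p ≠ q ∧ (q ≠ o ∨ r • v0 = 0) ∧ z = xs p q r}

/-- independent over the field with two elements (in a group of exponent two) -/
def Ind {X : Type} [AddCommGroup X] {k : ℕ} (v : Fin k → X) : Prop :=
  ∀ s : Finset (Fin k), s.Nonempty → ∑ i ∈ s, v i ≠ 0

/-- TASK STI: the stabilizer of a vector, infinitely many indices -/
def S_STI : Prop := ∀ (R V I : Type) [Ring R] [AddCommGroup V] [Module R V] [Infinite I] (v0 : V)
    (o : I), (2 : R) = 0 → (∀ z : SU R I, rho R V I z = 1 → z = 1) →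
    ∀ z : SU R I, rho R V I z (Finsupp.single o v0) = Finsupp.single o v0 → z ∈ PV R V I v0 o

/-- TASK RHF: the action is faithful, infinitely many indices -/
def S_RHF : Prop := ∀ (R V I : Type) [Ring R] [AddCommGroup V] [Module R V] [Infinite I], SwR R →
    (∀ r : R, (∀ v : V, r • v = 0) → r = 0) → ∀ z : SU R I, rho R V I z = 1 → z = 1

/-- TASK BRG: the action by matrices -/
def S_BRG : Prop := ∀ (R V J : Type) [Ring R] [AddCommGroup V] [Module R V] [Fintype J]
    [DecidableEq J] (z : SU R J) (w : J →₀ V) (i : J),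
    rho R V J z w i = ∑ j, (mt R J z).val i j • w j

/-- TASK BLK: block matrices -/
def S_BLK : Prop := ∀ (R K : Type) [Ring R] [Fintype K] [DecidableEq K] (z : SU R K),
    (∀ i j, (mt R (Option K) (io R K z)).val (some i) (some j) = (mt R K z).val i j) ∧
    (∀ i, (mt R (Option K) (io R K z)).val (some i) none = 0) ∧
    (∀ j, (mt R (Option K) (io R K z)).val none (some j) = 0) ∧
    (mt R (Option K) (io R K z)).val none none = 1

/-- TASK HDD: diagonal matrices -/
def S_HDD : Prop := ∀ (R K : Type) [Ring R] [Fintype K] [DecidableEq K] (o : K), SwR R →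
    3 ≤ Fintype.card K → ∀ u : Rˣ, ∃ z ∈ Subgroup.closure {z : SU R (Option K) |
      ∃ (i j : Option K) (r : R), i ≠ j ∧ j ≠ some o ∧ z = xs i j r},
      mt R (Option K) z = dD none u

/-- TASK MRG: merging infinitely many indices to one index -/
def S_MRG : Prop := ∀ (R V K : Type) [Ring R] [AddCommGroup V] [Module R V] [Fintype K]
    [DecidableEq K] (v0 : V) (o : K), Leav R →
    (∀ z : SU R (Option K ⊕ ℕ), rho R V (Option K ⊕ ℕ) z (Finsupp.single (.inl (some o)) v0) =
      Finsupp.single (.inl (some o)) v0 → z ∈ PV R V (Option K ⊕ ℕ) v0 (.inl (some o))) →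
    (∀ u : Rˣ, ∃ z ∈ Subgroup.closure {z : SU R (Option K) |
      ∃ (i j : Option K) (r : R), i ≠ j ∧ j ≠ some o ∧ z = xs i j r},
      mt R (Option K) z = dD none u) →
    ∀ z : SU R K, rho R V K z (Finsupp.single o v0) = Finsupp.single o v0 →
    ∃ z' ∈ PV R V (Option K) v0 (some o), mt R (Option K) z' = mt R (Option K) (io R K z)

/-- TASK RED: reduction of a matrix which fixes the vector `v0 e_o` -/
def S_RED : Prop := ∀ (R V K : Type) [Ring R] [AddCommGroup V] [Module R V] [Fintype K]
    [DecidableEq K] (v0 : V) (o : K), PI R → (1 : R) ≠ 0 → 2 ≤ Fintype.card K →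
    ∀ g : (Matrix (Option K) (Option K) R)ˣ,
    (∀ i, g.val i (some o) • v0 = if i = some o then v0 else 0) →
    ∃ p ∈ PV R V (Option K) v0 (some o), ∃ p' ∈ PV R V (Option K) v0 (some o),
    ∃ g₁ : (Matrix K K R)ˣ, (∀ i, g₁.val i o • v0 = if i = o then v0 else 0) ∧
    (∀ i j, (mt R (Option K) p * g * mt R (Option K) p').val (some i) (some j) = g₁.val i j) ∧
    (∀ i, (mt R (Option K) p * g * mt R (Option K) p').val (some i) none = 0) ∧
    (∀ j, (mt R (Option K) p * g * mt R (Option K) p').val none (some j) = 0) ∧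
    (mt R (Option K) p * g * mt R (Option K) p').val none none = 1

/-- TASK FGV: the stabilizer is finitely generated -/
def S_FGV : Prop := ∀ (R V J : Type) [Ring R] [Algebra (ZMod 2) R] [AddCommGroup V] [Module R V]
    [Fintype J] (v0 : V) (o : J), 4 ≤ Fintype.card J → FPA R →
    (∃ T : Finset R, (∀ t ∈ T, t • v0 = 0) ∧
      ∀ r : R, r • v0 = 0 → r ∈ Submodule.span R (T : Set R)) → (PV R V J v0 o).FG

/-- TASK DEN: density -/
def S_DEN : Prop := ∀ (R V : Type) [Ring R] [AddCommGroup V] [Module R V] (v0 : V), Good R V v0 →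
    ∀ (k : ℕ) (v u : Fin k → V), Ind v → ∃ r : R, ∀ i, r • v i = u i

/-- TASK ANN: annihilators of tuples are finitely generated (may use DEN) -/
def S_ANN : Prop := ∀ (R V : Type) [Ring R] [AddCommGroup V] [Module R V] (v0 : V), Good R V v0 →
    ∀ (k : ℕ) (v : Fin k → V), ∃ T : Finset R, (∀ t ∈ T, t • v = 0) ∧
      ∀ r : R, r • v = 0 → r ∈ Submodule.span R (T : Set R)

/-- TASK TRK: transitivity on independent tuples (may use DEN) -/
def S_TRK : Prop := ∀ (R V J : Type) [Ring R] [AddCommGroup V] [Module R V] [Fintype J]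
    [DecidableEq J] (v0 : V), Good R V v0 → Infinite V → 2 ≤ Fintype.card J →
    ∀ (k : ℕ) (w : Fin k → (J →₀ V)) (b : Fin k → V) (o : J), Ind w → Ind b →
    ∃ z : SU R J, ∀ i, rho R V J z (w i) = Finsupp.single o (b i)

/-- TASK IDP: independent tuples exist -/
def S_IDP : Prop := ∀ (V : Type) [AddCommGroup V] [Infinite V], (∀ v : V, v + v = 0) →
    ∀ k : ℕ, ∃ b : Fin k → V, Ind b

/-- TASK INV: the module is infinite -/
def S_INV : Prop := ∀ (R V : Type) [Ring R] [AddCommGroup V] [Module R V], (1 : R) ≠ 0 → Leav R →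
    (∀ r : R, (∀ v : V, r • v = 0) → r = 0) → Infinite V

/-- TASK OLG: oligomorphic actions on groups of exponent two -/
def S_OLG : Prop := ∀ (G X : Type) [Group G] [AddCommGroup X] (ρ : G →* Equiv.Perm X),
    (∀ x : X, x + x = 0) → (∀ g x y, ρ g (x + y) = ρ g x + ρ g y) → Group.FG G →
    (∀ (k : ℕ) (w w' : Fin k → X), Ind w → Ind w' → ∃ g, ∀ i, ρ g (w i) = w' i) →
    (∀ (k : ℕ) (w : Fin (k + 1) → X), Ind w →
      ((⨅ i, MulAction.stabilizer (Equiv.Perm X) (w i)).comap ρ).FG) →
    (∀ k : ℕ, (Set.range (fun x : Fin k → X =>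
      {y : Fin k → X | ∃ g : G, y = fun i => ρ g (x i)})).Finite) ∧
    ∀ F : Finset X, ((⨅ a ∈ F, MulAction.stabilizer (Equiv.Perm X) a).comap ρ).FG

/-- TASK RG2 (assembly): the ring and the module -/
def S_RG2 : Prop := ∀ (n : ℕ) (rels : Set (FreeGroup (Fin n))),
    ComputablePred (fun w : List (Fin n × Bool) =>
      PresentedGroup.mk rels (FreeGroup.mk w) = 1) →
    ∃ (R V : Type) (_ : Ring R) (_ : Algebra (ZMod 2) R) (_ : AddCommGroup V) (_ : Module R V)
      (v0 : V), FPA R ∧ Nice R ∧ Good R V v0 ∧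
      ∃ θ : PresentedGroup rels →* Rˣ, Function.Injective θ

end Pool.Agent.H318.BR
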