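import Pool.Agent.H318.BR.Stm
import Pool.Agent.H318.BQ.Asm4

/-!
# Project BR, task RG2: the ring and the module
-/

set_option autoImplicit false

open scoped TensorProduct

namespace Pool.Agent.H318.BR.T_RG2

open Y208.BH Y208.LQ Pool.SF Pool.Agent.H318.WP Pool.Agent.H318.BQ

/-- transport along an isomorphism of the target -/
theorem lvExt_equiv {R₁ R R' : Type} [Ring R₁] [Ring R] [Ring R'] {ι : R₁ →+* R}
    {e e' : Bool → R} (h : LvExt ι e e') (E : R ≃+* R') :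
    LvExt ((E : R →+* R').comp ι) (fun b => E (e b)) (fun b => E (e' b)) where
  inj := E.injective.comp h.inj
  one b := by rw [← map_mul, h.one, map_one]
  zero b c hbc := by rw [← map_mul, h.zero b c hbc, map_zero]
  sum := by rw [← map_mul, ← map_mul, ← map_add, h.sum, map_one]
  cm r b := by
    show E (ι r) * E (e b) = E (e b) * E (ι r)
    rw [← map_mul, ← map_mul, h.cm]
  cm' r b := by
    show E (ι r) * E (e' b) = E (e' b) * E (ι r)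
    rw [← map_mul, ← map_mul, h.cm']
  gen := by
    have h1 : Subring.map (E : R →+* R')
        (Subring.closure (Set.range ι ∪ (Set.range e ∪ Set.range e'))) = ⊤ := by
      rw [h.gen, eq_top_iff]
      rintro x -
      exact ⟨E.symm x, trivial, E.apply_symm_apply x⟩
    rw [RingHom.map_closure, Set.image_union, Set.image_union, ← Set.range_comp, ← Set.range_comp,
      ← Set.range_comp] at h1
    exact h1

/-- purely infinite simple rings are simple -/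
theorem simple_of_pi {A : Type} [Ring A] [Nontrivial A] (h : PI A) : IsSimpleRing A := by
  refine IsSimpleRing.of_eq_bot_or_eq_top fun I => ?_
  rw [or_iff_not_imp_left, ← I.one_mem_iff]
  intro hI
  obtain ⟨x, hx1, hx2⟩ := SetLike.exists_of_lt (bot_lt_iff_ne_bot.mpr hI : ⊥ < I)
  have hx0 : x ≠ 0 := fun h0 => hx2 (by rw [h0]; exact (⊥ : TwoSidedIdeal A).zero_mem)
  obtain ⟨a, b, hab⟩ := h x hx0
  rw [← hab]
  exact I.mul_mem_right _ _ (I.mul_mem_left _ _ hx1)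

/-- the hypothesis on the center -/
theorem ctr_of_ct {A : Type} [Ring A] [Algebra (ZMod 2) A] (h : CT A) (z : A)
    (hz : ∀ c, z * c = c * z) : ∃ r : ZMod 2, algebraMap (ZMod 2) A r = z := by
  rcases h z hz with h0 | h1
  · exact ⟨0, by rw [map_zero, h0]⟩
  · exact ⟨1, by rw [map_one, h1]⟩

theorem central_of_ct {A : Type} [Ring A] [Algebra (ZMod 2) A] (h : CT A) :
    Algebra.IsCentral (ZMod 2) A := ⟨by
  intro z hz
  rw [Subalgebra.mem_center_iff] at hz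
  obtain ⟨k, hk⟩ := ctr_of_ct h z (fun c => (hz c).symm)
  exact Algebra.mem_bot.2 ⟨k, hk⟩⟩

/-- exchange of the last two factors -/
noncomputable def Ex (R₁ L B : Type) [Ring R₁] [Algebra (ZMod 2) R₁] [Ring L] [Algebra (ZMod 2) L]
    [Ring B] [Algebra (ZMod 2) B] :
    (R₁ ⊗[ZMod 2] B) ⊗[ZMod 2] L ≃ₐ[ZMod 2] (R₁ ⊗[ZMod 2] L) ⊗[ZMod 2] B :=
  ((Algebra.TensorProduct.assoc (ZMod 2) (ZMod 2) (ZMod 2) R₁ B L).trans
    (Algebra.TensorProduct.congr AlgEquiv.refl (Algebra.TensorProduct.comm (ZMod 2) B L))).trans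
    (Algebra.TensorProduct.assoc (ZMod 2) (ZMod 2) (ZMod 2) R₁ L B).symm

theorem t : Pool.Agent.H318.BR.S_RG2 := by
  intro n rels hwp
  obtain ⟨R₁, _, _, hfp, ⟨w1⟩, hsim, hcen, θ, hθ⟩ := ring_one Pool.Agent.Y547.LQ.t_J1a
    Pool.Agent.Y547.LQ.t_J1b Y208.LQ.t_SIMP' Pool.Agent.Y839.LQ.t_TFP Pool.Agent.Y968.LQ.t_CEN
    n rels hwp
  obtain ⟨L, _, _, e, e', hLn, hLfp, h1, h0, hs, hg⟩ := T_LVA.t
  have hnt1 : Nontrivial R₁ := inferInstance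
  have hntA : Nontrivial (R₁ ⊗[ZMod 2] L) :=
    Algebra.TensorProduct.nontrivial_of_algebraMap_injective_of_flat_left (ZMod 2) _ _
      (FaithfulSMul.algebraMap_injective (ZMod 2) _)
  have hEA := lvExt (R₁ := R₁) e e' h1 h0 hs hg
  have hpiA : PI (R₁ ⊗[ZMod 2] L) := T_RPI.t T_SPN.t _ _ _ _ _ hEA
  have hctA : CT (R₁ ⊗[ZMod 2] L) := T_RCT.t T_SPN.t _ _ _ _ _ hEA (ct_of_central R₁ hcen)
  have hAs : IsSimpleRing (R₁ ⊗[ZMod 2] L) := simple_of_pi hpiA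
  have hAc : Algebra.IsCentral (ZMod 2) (R₁ ⊗[ZMod 2] L) := central_of_ct hctA
  have hAfp := Pool.Agent.Y839.LQ.t_TFP (ZMod 2) R₁ L hfp hLfp
  obtain ⟨wA⟩ := sw_tensor (S := L) w1
  obtain ⟨wR⟩ := sw_tensor (S := (R₁ ⊗[ZMod 2] L)ᵐᵒᵖ) wA
  obtain ⟨hmod, hgood⟩ := Pool.Agent.Y151.BH.Bim.t_BIM (R₁ ⊗[ZMod 2] L) hAs (ctr_of_ct hctA)
    (Y88.BH.t_FPO.1 _ hAfp)
  have hRnt : Nontrivial ((R₁ ⊗[ZMod 2] L) ⊗[ZMod 2] (R₁ ⊗[ZMod 2] L)ᵐᵒᵖ) :=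
    Algebra.TensorProduct.nontrivial_of_algebraMap_injective_of_flat_left (ZMod 2) _ _
      (FaithfulSMul.algebraMap_injective (ZMod 2) _)
  have hops : IsSimpleRing (R₁ ⊗[ZMod 2] L)ᵐᵒᵖ := inferInstance
  have hopc : Algebra.IsCentral (ZMod 2) (R₁ ⊗[ZMod 2] L)ᵐᵒᵖ := inferInstance
  have hBs : IsSimpleRing (R₁ ⊗[ZMod 2] (R₁ ⊗[ZMod 2] L)ᵐᵒᵖ) :=
    Pool.Agent.Helper18.Br.isSimple_tensor
  have hBc : Algebra.IsCentral (ZMod 2) (R₁ ⊗[ZMod 2] (R₁ ⊗[ZMod 2] L)ᵐᵒᵖ) :=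
    Pool.Agent.Helper18.Br.isCentral_tensor
  have hBn : Nontrivial (R₁ ⊗[ZMod 2] (R₁ ⊗[ZMod 2] L)ᵐᵒᵖ) := inferInstance
  have hE0 := lvExt (R₁ := R₁ ⊗[ZMod 2] (R₁ ⊗[ZMod 2] L)ᵐᵒᵖ) e e' h1 h0 hs hg
  have hE := lvExt_equiv hE0 (Ex R₁ L (R₁ ⊗[ZMod 2] L)ᵐᵒᵖ).toRingEquiv
  let χ2 : (R₁ ⊗[ZMod 2] L) →ₐ[ZMod 2] (R₁ ⊗[ZMod 2] L) ⊗[ZMod 2] (R₁ ⊗[ZMod 2] L)ᵐᵒᵖ :=
    Algebra.TensorProduct.includeLeft
  have hχ2 : Function.Injective χ2 :=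
    Algebra.TensorProduct.includeLeft_injective (FaithfulSMul.algebraMap_injective (ZMod 2) _)
  let θ0 : PresentedGroup rels →* (R₁ ⊗[ZMod 2] L) ⊗[ZMod 2] (R₁ ⊗[ZMod 2] L)ᵐᵒᵖ :=
    (χ2 : _ →* _).comp (((il R₁ L : R₁ →* R₁ ⊗[ZMod 2] L)).comp θ)
  refine ⟨(R₁ ⊗[ZMod 2] L) ⊗[ZMod 2] (R₁ ⊗[ZMod 2] L)ᵐᵒᵖ, R₁ ⊗[ZMod 2] L, inferInstance,
    inferInstance, inferInstance, hmod, 1,
    Y88.BH.t_FPO.1 _ (Pool.Agent.Y839.LQ.t_TFP _ _ _ hAfp (Y88.BH.t_FPO.2 _ hAfp)),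
    ⟨two_zero _, one_ne_zero, T_RPI.t T_SPN.t _ _ _ _ _ hE, T_RGP.t T_SPN.t _ _ _ _ _ hE,
      T_RCT.t T_SPN.t _ _ _ _ _ hE (ct_of_central _ hBc), swR_of_Sw wR,
      ⟨_, _, _, _, hE.one true, hE.one false, hE.zero true false (by decide),
        hE.zero false true (by decide), hE.sum⟩⟩, hgood, θ0.toHomUnits, ?_⟩
  intro g g' h
  have h2 : θ0 g = θ0 g' := congrArg Units.val h
  exact hθ (hEA.inj (hχ2 h2))

end Pool.Agent.H318.BR.T_RG2
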